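import Mathlib

/-!
The beta function lemma with explicit bounds.
-/

set_option autoImplicit false

namespace Pool.Agent.W894.LIO

open Nat

/-- bound for codes of sequences of length `N + 1` with entries at most `S` -/
def Bd (N S : ℕ) : ℕ := (((N + 2) * ((N + 1)! * (S + 1))) ^ (N + 1) + 1) ^ 2

theorem exists_beta (N S : ℕ) (x : ℕ → ℕ) (hx : ∀ i, i ≤ N → x i ≤ S) :
    ∃ s, S ≤ s ∧ s ≤ Bd N S ∧ ∀ i, i ≤ N → Nat.beta s i = x i := by
  set D : ℕ := (N + 1)! * (S + 1) with hD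
  have hfac : 1 ≤ (N + 1)! := Nat.factorial_pos _
  have hDS : S + 1 ≤ D := by rw [hD]; nlinarith
  have hcop : Set.Pairwise (↑(Finset.range (N + 1)) : Set ℕ)
      (Function.onFun Nat.Coprime (fun i => (i + 1) * D + 1)) := by
    have key : ∀ i j : ℕ, i < j → j ≤ N → Nat.Coprime ((i + 1) * D + 1) ((j + 1) * D + 1) := by
      intro i j hij hj
      apply Nat.coprime_mul_succ
      exact Dvd.dvd.mul_right (Nat.dvd_factorial (by omega) (by omega)) _
    intro i hi j hj hij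
    simp only [Finset.coe_range, Set.mem_Iio] at hi hj
    rcases lt_or_gt_of_ne hij with h | h
    · exact key i j h (by omega)
    · exact (key j i h (by omega)).symm
  obtain ⟨k, hk1, hk2⟩ : ∃ k : ℕ, (∀ i ∈ Finset.range (N + 1), k ≡ x i [MOD ((i + 1) * D + 1)]) ∧
      k < ∏ i ∈ Finset.range (N + 1), ((i + 1) * D + 1) :=
    ⟨Nat.chineseRemainderOfFinset x (fun i => (i + 1) * D + 1) (Finset.range (N + 1))
      (fun i _ => by simp) hcop, (Nat.chineseRemainderOfFinset x _ _ _ hcop).2,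
      Nat.chineseRemainderOfFinset_lt_prod x _ (fun i _ => by simp) hcop⟩
  have hP : ∏ i ∈ Finset.range (N + 1), ((i + 1) * D + 1) ≤ ((N + 2) * D) ^ (N + 1) := by
    have h1 : ∏ i ∈ Finset.range (N + 1), ((i + 1) * D + 1) ≤
        ∏ _i ∈ Finset.range (N + 1), ((N + 2) * D) := by
      apply Finset.prod_le_prod'
      intro i hi
      have hi' := Finset.mem_range.1 hi
      have h2 : (i + 1) * D ≤ (N + 1) * D := Nat.mul_le_mul_right _ (by omega)
      nlinarith
    simpa using h1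
  have hDP : D ≤ ((N + 2) * D) ^ (N + 1) := by
    have h1 : D ≤ (N + 2) * D := by nlinarith
    refine h1.trans ?_
    exact Nat.le_self_pow (by omega) _
  refine ⟨Nat.pair k D, ?_, ?_, ?_⟩
  · have := Nat.right_le_pair k D
    omega
  · have h1 := Nat.pair_lt_max_add_one_sq k D
    have h2 : max k D ≤ ((N + 2) * D) ^ (N + 1) := max_le (hk2.le.trans hP) hDP
    unfold Bd
    rw [← hD]
    exact h1.le.trans (Nat.pow_le_pow_left (by omega) 2)
  · intro i hi
    unfold Nat.beta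
    rw [Nat.unpair_pair]
    have h1 := hk1 i (Finset.mem_range.2 (by omega))
    have h2 : x i < (i + 1) * D + 1 := by
      have := hx i hi
      nlinarith
    have h3 : k % ((i + 1) * D + 1) = x i % ((i + 1) * D + 1) := h1
    rw [h3]
    exact Nat.mod_eq_of_lt h2

theorem Bd_mono {N N' S S' : ℕ} (h : N ≤ N') (h' : S ≤ S') : Bd N S ≤ Bd N' S' := by
  unfold Bd
  refine Nat.pow_le_pow_left ?_ 2
  have h1 : (N + 1)! ≤ (N' + 1)! := Nat.factorial_le (by omega)
  have h2 : (N + 2) * ((N + 1)! * (S + 1)) ≤ (N' + 2) * ((N' + 1)! * (S' + 1)) :=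
    Nat.mul_le_mul (by omega) (Nat.mul_le_mul h1 (by omega))
  have h3 : 1 ≤ (N' + 2) * ((N' + 1)! * (S' + 1)) :=
    Nat.mul_pos (by omega) (Nat.mul_pos (Nat.factorial_pos _) (by omega))
  have := (Nat.pow_le_pow_left h2 (N + 1)).trans (Nat.pow_le_pow_right h3 (by omega : N + 1 ≤ N' + 1))
  omega

/-- the exponent in the estimate for `Bd` -/
def Be (N l : ℕ) : ℕ := 2 * ((N + 1) * ((N + 2) + (N + 1) * (N + 1) + l) + 1)

theorem Bd_le_two_pow {N S l : ℕ} (h : S + 1 ≤ 2 ^ l) : Bd N S ≤ 2 ^ Be N l := by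
  unfold Bd Be
  rw [mul_comm 2, pow_mul]
  refine Nat.pow_le_pow_left ?_ 2
  have h1 : (N + 1)! ≤ 2 ^ ((N + 1) * (N + 1)) := by
    rw [pow_mul]
    exact (Nat.factorial_le_pow _).trans (Nat.pow_le_pow_left (Nat.lt_two_pow_self).le _)
  have h2 : N + 2 ≤ 2 ^ (N + 2) := (Nat.lt_two_pow_self).le
  have h3 : (N + 2) * ((N + 1)! * (S + 1)) ≤ 2 ^ ((N + 2) + (N + 1) * (N + 1) + l) := by
    rw [pow_add, pow_add, mul_assoc]
    exact Nat.mul_le_mul h2 (Nat.mul_le_mul h1 h)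
  have h4 := Nat.pow_le_pow_left h3 (N + 1)
  rw [← pow_mul, mul_comm _ (N + 1)] at h4
  have h5 : 1 ≤ 2 ^ ((N + 1) * (N + 2 + (N + 1) * (N + 1) + l)) := Nat.one_le_two_pow
  have h6 : 2 ^ ((N + 1) * (N + 2 + (N + 1) * (N + 1) + l) + 1) =
      2 ^ ((N + 1) * (N + 2 + (N + 1) * (N + 1) + l)) * 2 := pow_succ _ _
  omega

theorem Be_mono {N N' l l' : ℕ} (h : N ≤ N') (h' : l ≤ l') : Be N l ≤ Be N' l' := by
  unfold Be
  gcongr

theorem beta_le (s i : ℕ) : Nat.beta s i ≤ s :=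
  (Nat.mod_le _ _).trans (Nat.unpair_left_le s)

theorem beta_zero (i : ℕ) : Nat.beta 0 i = 0 := Nat.le_zero.1 (beta_le 0 i)

end Pool.Agent.W894.LIO
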