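import Mathlib

/-!
A predicate `f` whose values on `m`-tuples are avoided by `g` is computed, on each initial segment,
by a majority vote of few predictors defined from `g`.
-/

set_option autoImplicit false

namespace Pool.Agent.W894.LIO

open scoped Classical in
/-- the vote on `x` of the predictor given by `j`, `y`, `b` -/
noncomputable def vote {m : ℕ} (g : (Fin m → ℕ) → Fin m → Prop) (j : Fin m) (y : Fin m → ℕ)
    (b : Fin m → Prop) (x : ℕ) : ℤ :=
  if ∀ i, i < j → (g (Function.update y j x) i ↔ b i) then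
    (if g (Function.update y j x) j then -1 else 1) else 0

open scoped Classical in
/-- the sign of `f` at `x` -/
noncomputable def sg (f : ℕ → Prop) (x : ℕ) : ℤ := if f x then 1 else -1

open scoped Classical in
/-- the success of the predictor `j` at the tuple `x` -/
noncomputable def suc {m : ℕ} (f : ℕ → Prop) (g : (Fin m → ℕ) → Fin m → Prop) (j : Fin m)
    (x : Fin m → ℕ) : ℤ :=
  if ∀ i, i < j → (g x i ↔ f (x i)) then (if (g x j ↔ f (x j)) then -1 else 1) else 0

theorem vote_mul_sg {m : ℕ} (f : ℕ → Prop) (g : (Fin m → ℕ) → Fin m → Prop) (j : Fin m)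
    (y : Fin m → ℕ) (x : ℕ) :
    vote g j y (fun i => f (y i)) x * sg f x = suc f g j (Function.update y j x) := by
  unfold vote sg suc
  have h : (∀ i, i < j → (g (Function.update y j x) i ↔ f (Function.update y j x i))) ↔
      (∀ i, i < j → (g (Function.update y j x) i ↔ f (y i))) := by
    apply forall_congr'
    intro i
    apply forall_congr'
    intro hi
    rw [Function.update_of_ne (ne_of_lt hi)]
  rw [Function.update_self]
  by_cases h1 : (∀ i, i < j → (g (Function.update y j x) i ↔ f (y i)))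
  · have h2 := h.2 h1
    rw [if_pos h1, if_pos h2]
    by_cases h3 : g (Function.update y j x) j <;> by_cases h4 : f x <;> simp [h3, h4]
  · have h2 := fun h' => h1 (h.1 h')
    rw [if_neg h1, if_neg h2]
    simp

open scoped Classical in
theorem sum_pow_aux (p : ℕ → Prop) : ∀ m : ℕ,
    ((∀ i, i < m → p i) → ∑ j ∈ Finset.range m, (2 : ℤ) ^ j *
      (if ∀ i, i < j → p i then (if p j then -1 else 1) else 0) = 1 - 2 ^ m) ∧
    ((¬ ∀ i, i < m → p i) → ∑ j ∈ Finset.range m, (2 : ℤ) ^ j *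
      (if ∀ i, i < j → p i then (if p j then -1 else 1) else 0) = 1) := by
  intro m
  induction m with
  | zero => simp
  | succ m ih =>
    rw [Finset.sum_range_succ]
    by_cases h : ∀ i, i < m → p i
    · rw [if_pos h, ih.1 h]
      by_cases h2 : p m
      · rw [if_pos h2]
        refine ⟨fun _ => by ring, fun h3 => absurd ?_ h3⟩
        intro i hi
        rcases Nat.lt_succ_iff_lt_or_eq.1 hi with h4 | h4
        · exact h i h4
        · rw [h4]; exact h2
      · rw [if_neg h2]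
        exact ⟨fun h3 => absurd (h3 m (by omega)) h2, fun _ => by ring⟩
    · rw [if_neg h, ih.2 h]
      exact ⟨fun h3 => absurd (fun i hi => h3 i (by omega)) h, fun _ => by ring⟩

theorem sum_suc {m : ℕ} (f : ℕ → Prop) (g : (Fin m → ℕ) → Fin m → Prop) (x : Fin m → ℕ)
    (h : ∃ j, ¬ (f (x j) ↔ g x j)) : ∑ j : Fin m, (2 : ℤ) ^ (j : ℕ) * suc f g j x = 1 := by
  classical
  have key := (sum_pow_aux (fun i => ∀ hi : i < m, (g x ⟨i, hi⟩ ↔ f (x ⟨i, hi⟩))) m).2 (by
    obtain ⟨j, hj⟩ := h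
    intro h'
    exact hj (h' j j.isLt j.isLt).symm)
  rw [← Fin.sum_univ_eq_sum_range] at key
  rw [← key]
  refine Finset.sum_congr rfl fun j _ => ?_
  congr 1
  unfold suc
  have h1 : (∀ i, i < j → (g x i ↔ f (x i))) ↔
      (∀ i, i < (j : ℕ) → ∀ hi : i < m, (g x ⟨i, hi⟩ ↔ f (x ⟨i, hi⟩))) := by
    constructor
    · intro h i hi hi'
      exact h ⟨i, hi'⟩ hi
    · intro h i hi
      exact h i hi i.isLt
  have h2 : (g x j ↔ f (x j)) ↔ (∀ hi : (j : ℕ) < m, (g x ⟨j, hi⟩ ↔ f (x ⟨j, hi⟩))) :=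
    ⟨fun h _ => h, fun h => h j.isLt⟩
  by_cases hA : (∀ i, i < j → (g x i ↔ f (x i)))
  · rw [if_pos hA, if_pos (h1.1 hA)]
    by_cases hB : (g x j ↔ f (x j))
    · rw [if_pos hB, if_pos (h2.1 hB)]
    · rw [if_neg hB, if_neg (fun h => hB (h2.2 h))]
  · rw [if_neg hA, if_neg (fun h => hA (h1.2 h))]

/-- Fubini: the average of the success of the predictors -/
theorem avg {m : ℕ} (D : Finset ℕ) (w : ℕ → ℝ) (F : (Fin m → ℕ) → ℝ)
    (j : Fin m) : (∑ x ∈ D, w x) * ∑ x ∈ Fintype.piFinset (fun _ : Fin m => D),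
      (∏ i, w (x i)) * F x =
    ∑ x ∈ Fintype.piFinset (fun _ : Fin m => D), (∏ i, w (x i)) *
      ∑ z ∈ D, w z * F (Function.update x j z) := by
  classical
  have h1 : (∑ x ∈ D, w x) * ∑ x ∈ Fintype.piFinset (fun _ : Fin m => D),
      (∏ i, w (x i)) * F x = ∑ p ∈ (Fintype.piFinset (fun _ : Fin m => D)) ×ˢ D,
        w p.2 * ((∏ i, w (p.1 i)) * F p.1) := by
    rw [Finset.sum_product_right, Finset.sum_mul_sum]
  have h2 : ∑ x ∈ Fintype.piFinset (fun _ : Fin m => D), (∏ i, w (x i)) *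
      ∑ z ∈ D, w z * F (Function.update x j z) =
      ∑ p ∈ (Fintype.piFinset (fun _ : Fin m => D)) ×ˢ D,
        (∏ i, w (p.1 i)) * (w p.2 * F (Function.update p.1 j p.2)) := by
    rw [Finset.sum_product]
    refine Finset.sum_congr rfl fun x _ => ?_
    rw [Finset.mul_sum]
  rw [h1, h2]
  refine Finset.sum_bij' (fun p _ => (Function.update p.1 j p.2, p.1 j))
    (fun p _ => (Function.update p.1 j p.2, p.1 j)) ?_ ?_ ?_ ?_ ?_
  · intro p hp
    rw [Finset.mem_product, Fintype.mem_piFinset] at hp ⊢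
    refine ⟨fun i => ?_, hp.1 j⟩
    by_cases hij : i = j
    · subst hij
      simpa using hp.2
    · simpa [Function.update_of_ne hij] using hp.1 i
  · intro p hp
    rw [Finset.mem_product, Fintype.mem_piFinset] at hp ⊢
    refine ⟨fun i => ?_, hp.1 j⟩
    by_cases hij : i = j
    · subst hij
      simpa using hp.2
    · simpa [Function.update_of_ne hij] using hp.1 i
  · intro p _
    simp
  · intro p _
    simp
  · intro p _
    have h4 : (∏ i, w (p.1 i)) = w (p.1 j) * ∏ i ∈ Finset.univ.erase j, w (p.1 i) :=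
      (Finset.mul_prod_erase _ _ (Finset.mem_univ j)).symm
    have h5 : (∏ i, w (Function.update p.1 j p.2 i)) =
        w p.2 * ∏ i ∈ Finset.univ.erase j, w (p.1 i) := by
      rw [← Finset.mul_prod_erase _ _ (Finset.mem_univ j), Function.update_self]
      congr 1
      refine Finset.prod_congr rfl fun i hi => ?_
      rw [Function.update_of_ne (Finset.ne_of_mem_erase hi)]
    simp only [Function.update_idem, Function.update_eq_self]
    rw [h4, h5]
    ring

theorem exists_good {m : ℕ} (f : ℕ → Prop) (g : (Fin m → ℕ) → Fin m → Prop)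
    (h : ∀ x, ∃ j, ¬ (f (x j) ↔ g x j)) (D : Finset ℕ) (w : ℕ → ℝ) (hw : ∀ x ∈ D, 0 < w x)
    (hD : D.Nonempty) :
    ∃ (j : Fin m) (y : Fin m → ℕ), (∀ i, y i ∈ D) ∧
      (1 / 2 ^ m) * ∑ x ∈ D, w x ≤
        ∑ x ∈ D, w x * ((vote g j y (fun i => f (y i)) x * sg f x : ℤ) : ℝ) := by
  classical
  by_contra hcon
  push Not at hcon
  have hW : 0 < ∑ x ∈ D, w x := Finset.sum_pos hw hD
  set W := ∑ x ∈ D, w x with hWd
  have hprod : ∑ x ∈ Fintype.piFinset (fun _ : Fin m => D), (∏ i, w (x i)) = W ^ m := by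
    rw [Finset.sum_prod_piFinset]
    simp [hWd]
  have hpos : ∀ x ∈ Fintype.piFinset (fun _ : Fin m => D), 0 < ∏ i, w (x i) := by
    intro x hx
    rw [Fintype.mem_piFinset] at hx
    exact Finset.prod_pos fun i _ => hw _ (hx i)
  have h1 : ∀ j : Fin m, ∑ x ∈ Fintype.piFinset (fun _ : Fin m => D),
      (∏ i, w (x i)) * (suc f g j x : ℝ) ≤ (1 / 2 ^ m) * W ^ m := by
    intro j
    have h2 := avg D w (fun x => (suc f g j x : ℝ)) j
    have h3 : ∑ x ∈ Fintype.piFinset (fun _ : Fin m => D), (∏ i, w (x i)) *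
        ∑ z ∈ D, w z * ((suc f g j (Function.update x j z) : ℤ) : ℝ) ≤
        ∑ x ∈ Fintype.piFinset (fun _ : Fin m => D), (∏ i, w (x i)) * ((1 / 2 ^ m) * W) := by
      refine Finset.sum_le_sum fun x hx => ?_
      refine mul_le_mul_of_nonneg_left ?_ (hpos x hx).le
      rw [Fintype.mem_piFinset] at hx
      have h4 := (hcon j x hx).le
      refine le_trans (le_of_eq ?_) h4
      refine Finset.sum_congr rfl fun z _ => ?_
      rw [vote_mul_sg]
    rw [← h2, ← Finset.sum_mul, hprod] at h3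
    have h5 : W * ∑ x ∈ Fintype.piFinset (fun _ : Fin m => D),
        (∏ i, w (x i)) * (suc f g j x : ℝ) ≤ W * ((1 / 2 ^ m) * W ^ m) := by
      refine h3.trans (le_of_eq ?_)
      ring
    exact le_of_mul_le_mul_left h5 hW
  have h2 : ∑ j : Fin m, (2 : ℝ) ^ (j : ℕ) * ∑ x ∈ Fintype.piFinset (fun _ : Fin m => D),
      (∏ i, w (x i)) * (suc f g j x : ℝ) = W ^ m := by
    rw [← hprod]
    simp only [Finset.mul_sum]
    rw [Finset.sum_comm]
    refine Finset.sum_congr rfl fun x _ => ?_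
    have h3 := sum_suc f g x (h x)
    have h4 : (∑ j : Fin m, (2 : ℝ) ^ (j : ℕ) * (suc f g j x : ℝ)) = 1 := by
      exact_mod_cast h3
    calc ∑ j : Fin m, (2 : ℝ) ^ (j : ℕ) * ((∏ i, w (x i)) * (suc f g j x : ℝ))
        = (∏ i, w (x i)) * ∑ j : Fin m, (2 : ℝ) ^ (j : ℕ) * (suc f g j x : ℝ) := by
          rw [Finset.mul_sum]
          refine Finset.sum_congr rfl fun j _ => by ring
      _ = ∏ i, w (x i) := by rw [h4, mul_one]
  have h3 : ∑ j : Fin m, (2 : ℝ) ^ (j : ℕ) * ∑ x ∈ Fintype.piFinset (fun _ : Fin m => D),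
      (∏ i, w (x i)) * (suc f g j x : ℝ) ≤
      ∑ j : Fin m, (2 : ℝ) ^ (j : ℕ) * ((1 / 2 ^ m) * W ^ m) :=
    Finset.sum_le_sum fun j _ => mul_le_mul_of_nonneg_left (h1 j) (by positivity)
  rw [h2, ← Finset.sum_mul, Fin.sum_univ_eq_sum_range (fun j => (2 : ℝ) ^ j) m,
    geom_sum_eq (by norm_num)] at h3
  have h4 : 0 < W ^ m := pow_pos hW m
  have h5 : (0 : ℝ) < 2 ^ m := by positivity
  have h6 : ((2 : ℝ) ^ m - 1) / (2 - 1) * (1 / 2 ^ m * W ^ m) = W ^ m - W ^ m / 2 ^ m := by
    field_simp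
    ring
  rw [h6] at h3
  have : 0 < W ^ m / 2 ^ m := by positivity
  linarith

theorem prod_lower (η : ℝ) (h0 : 0 < η) (h1 : η < 1) (c : ℕ → ℤ)
    (hc : ∀ r, c r = -1 ∨ c r = 0 ∨ c r = 1) : ∀ R : ℕ,
    (1 - η ^ 2) ^ R * (1 + η) ^ (-∑ r ∈ Finset.range R, c r) ≤
      ∏ r ∈ Finset.range R, (1 - η * (c r : ℝ)) := by
  intro R
  induction R with
  | zero => simp
  | succ R ih =>
    rw [Finset.prod_range_succ, Finset.sum_range_succ, neg_add, zpow_add₀ (by linarith), pow_succ]
    have h2 : (1 - η ^ 2) * (1 + η) ^ (-c R) ≤ 1 - η * (c R : ℝ) := by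
      rcases hc R with h | h | h
      · rw [h]
        simp only [neg_neg, zpow_one]
        push_cast
        nlinarith [sq_nonneg η]
      · rw [h]
        simp only [neg_zero, zpow_zero]
        push_cast
        nlinarith [sq_nonneg η]
      · rw [h, zpow_neg, zpow_one]
        push_cast
        have : (1 - η ^ 2) * (1 + η)⁻¹ = 1 - η := by
          field_simp
          ring
        rw [this]
        linarith
    have h3 : 0 ≤ (1 - η ^ 2) * (1 + η) ^ (-c R) := by
      apply mul_nonneg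
      · nlinarith
      · positivity
    have h4 : 0 ≤ (1 - η ^ 2) ^ R * (1 + η) ^ (-∑ r ∈ Finset.range R, c r) := by
      apply mul_nonneg
      · apply pow_nonneg
        nlinarith
      · positivity
    calc (1 - η ^ 2) ^ R * (1 - η ^ 2) * ((1 + η) ^ (-∑ r ∈ Finset.range R, c r) *
          (1 + η) ^ (-c R)) = ((1 - η ^ 2) ^ R * (1 + η) ^ (-∑ r ∈ Finset.range R, c r)) *
          ((1 - η ^ 2) * (1 + η) ^ (-c R)) := by ring
      _ ≤ _ := mul_le_mul ih h2 h3 (h4.trans ih)

theorem vote_mul_sg_cases {m : ℕ} (f : ℕ → Prop) (g : (Fin m → ℕ) → Fin m → Prop) (j : Fin m)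
    (y : Fin m → ℕ) (b : Fin m → Prop) (x : ℕ) :
    vote g j y b x * sg f x = -1 ∨ vote g j y b x * sg f x = 0 ∨
      vote g j y b x * sg f x = 1 := by
  unfold vote sg
  split <;> split <;> (try split) <;> simp

theorem boost {m : ℕ} (f : ℕ → Prop) (g : (Fin m → ℕ) → Fin m → Prop)
    (h : ∀ x, ∃ j, ¬ (f (x j) ↔ g x j)) (Z l : ℕ) (hZ : Z + 1 ≤ 2 ^ l) :
    ∃ (J : ℕ → Fin m) (Y : ℕ → Fin m → ℕ), (∀ r i, Y r i ≤ Z) ∧
      ∀ x, x ≤ Z → (f x ↔ 0 < ∑ r ∈ Finset.range (4 ^ (m + 1) * (l + 1)),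
        vote g (J r) (Y r) (fun i => f (Y r i)) x) := by
  classical
  set η : ℝ := 1 / 2 ^ (m + 1) with hη
  have hη0 : 0 < η := by positivity
  have hη1 : η < 1 := by
    rw [hη, div_lt_one (by positivity)]
    exact one_lt_pow₀ (by norm_num) (by omega)
  have hγ : (1 : ℝ) / 2 ^ m = 2 * η := by
    rw [hη, pow_succ]
    field_simp
  have hηh : η ≤ 1 / 2 := by
    rw [hη]
    have : (2 : ℝ) ^ 1 ≤ 2 ^ (m + 1) := pow_le_pow_right₀ (by norm_num) (by omega)
    rw [pow_one] at this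
    exact one_div_le_one_div_of_le (by norm_num) this
  have step : ∀ R : ℕ, ∃ (J : ℕ → Fin m) (Y : ℕ → Fin m → ℕ), (∀ r i, Y r i ≤ Z) ∧
      ∑ x ∈ Finset.range (Z + 1), ∏ r ∈ Finset.range R,
        (1 - η * ((vote g (J r) (Y r) (fun i => f (Y r i)) x * sg f x : ℤ) : ℝ)) ≤
        (Z + 1 : ℝ) * (1 - 2 * η ^ 2) ^ R := by
    intro R
    induction R with
    | zero =>
      obtain ⟨j, _⟩ := h (fun _ => 0)
      exact ⟨fun _ => j, fun _ _ => 0, fun _ _ => Nat.zero_le _, by simp⟩
    | succ R ih =>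
      obtain ⟨J, Y, hY, hS⟩ := ih
      set w : ℕ → ℝ := fun x => ∏ r ∈ Finset.range R,
        (1 - η * ((vote g (J r) (Y r) (fun i => f (Y r i)) x * sg f x : ℤ) : ℝ)) with hw
      have hwpos : ∀ x ∈ Finset.range (Z + 1), 0 < w x := by
        intro x _
        refine Finset.prod_pos fun r _ => ?_
        rcases vote_mul_sg_cases f g (J r) (Y r) (fun i => f (Y r i)) x with h1 | h1 | h1 <;>
          rw [h1] <;> push_cast <;> linarith
      obtain ⟨j, y, hy, hg⟩ := exists_good f g h (Finset.range (Z + 1)) w hwpos ⟨0, by simp⟩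
      refine ⟨fun r => if r = R then j else J r, fun r => if r = R then y else Y r, ?_, ?_⟩
      · intro r i
        by_cases hr : r = R
        · simp only [hr, if_true]
          have := Finset.mem_range.1 (hy i)
          omega
        · simp only [hr, if_false]
          exact hY r i
      · have h1 : ∀ x, ∏ r ∈ Finset.range (R + 1),
            (1 - η * ((vote g (if r = R then j else J r) (if r = R then y else Y r)
              (fun i => f ((if r = R then y else Y r) i)) x * sg f x : ℤ) : ℝ)) =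
            w x * (1 - η * ((vote g j y (fun i => f (y i)) x * sg f x : ℤ) : ℝ)) := by
          intro x
          rw [Finset.prod_range_succ]
          simp only [if_true]
          congr 1
          refine Finset.prod_congr rfl fun r hr => ?_
          have : r ≠ R := (Finset.mem_range.1 hr).ne
          simp only [this, if_false]
        simp only [h1]
        have h2 : ∑ x ∈ Finset.range (Z + 1), w x *
            (1 - η * ((vote g j y (fun i => f (y i)) x * sg f x : ℤ) : ℝ)) =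
            ∑ x ∈ Finset.range (Z + 1), w x - η * ∑ x ∈ Finset.range (Z + 1), w x *
              ((vote g j y (fun i => f (y i)) x * sg f x : ℤ) : ℝ) := by
          rw [Finset.mul_sum, ← Finset.sum_sub_distrib]
          refine Finset.sum_congr rfl fun x _ => by ring
        rw [h2]
        rw [hγ] at hg
        have h3 : 0 ≤ 1 - 2 * η ^ 2 := by nlinarith
        calc ∑ x ∈ Finset.range (Z + 1), w x - η * ∑ x ∈ Finset.range (Z + 1), w x *
              ((vote g j y (fun i => f (y i)) x * sg f x : ℤ) : ℝ)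
            ≤ ∑ x ∈ Finset.range (Z + 1), w x - η * (2 * η * ∑ x ∈ Finset.range (Z + 1), w x) := by
              have := mul_le_mul_of_nonneg_left hg hη0.le
              linarith
          _ = (∑ x ∈ Finset.range (Z + 1), w x) * (1 - 2 * η ^ 2) := by ring
          _ ≤ ((Z + 1 : ℝ) * (1 - 2 * η ^ 2) ^ R) * (1 - 2 * η ^ 2) :=
              mul_le_mul_of_nonneg_right hS h3
          _ = (Z + 1 : ℝ) * (1 - 2 * η ^ 2) ^ (R + 1) := by rw [pow_succ]; ring
  obtain ⟨J, Y, hY, hS⟩ := step (4 ^ (m + 1) * (l + 1))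
  set R := 4 ^ (m + 1) * (l + 1) with hR
  refine ⟨J, Y, hY, ?_⟩
  have key : ∀ x, x ≤ Z → 0 < ∑ r ∈ Finset.range R,
      vote g (J r) (Y r) (fun i => f (Y r i)) x * sg f x := by
    intro x hx
    by_contra hcon
    push Not at hcon
    have h1 := prod_lower η hη0 hη1 (fun r => vote g (J r) (Y r) (fun i => f (Y r i)) x * sg f x)
      (fun r => vote_mul_sg_cases f g _ _ _ _) R
    have h2 : (1 : ℝ) ≤ (1 + η) ^ (-∑ r ∈ Finset.range R,
        vote g (J r) (Y r) (fun i => f (Y r i)) x * sg f x) :=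
      one_le_zpow₀ (by linarith) (by omega)
    have h3 : (0 : ℝ) ≤ 1 - η ^ 2 := by nlinarith
    have h3' : (0 : ℝ) < 1 - η ^ 2 := by nlinarith
    have h4 : (1 - η ^ 2) ^ R ≤ ∏ r ∈ Finset.range R,
        (1 - η * ((vote g (J r) (Y r) (fun i => f (Y r i)) x * sg f x : ℤ) : ℝ)) := by
      refine le_trans ?_ h1
      exact le_mul_of_one_le_right (pow_nonneg h3 R) h2
    have h5 : ∏ r ∈ Finset.range R,
        (1 - η * ((vote g (J r) (Y r) (fun i => f (Y r i)) x * sg f x : ℤ) : ℝ)) ≤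
        ∑ x ∈ Finset.range (Z + 1), ∏ r ∈ Finset.range R,
        (1 - η * ((vote g (J r) (Y r) (fun i => f (Y r i)) x * sg f x : ℤ) : ℝ)) := by
      refine Finset.single_le_sum (f := fun x => ∏ r ∈ Finset.range R,
        (1 - η * ((vote g (J r) (Y r) (fun i => f (Y r i)) x * sg f x : ℤ) : ℝ))) ?_
        (Finset.mem_range.2 (by omega))
      intro x _
      refine Finset.prod_nonneg fun r _ => ?_
      rcases vote_mul_sg_cases f g (J r) (Y r) (fun i => f (Y r i)) x with h1 | h1 | h1 <;>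
        rw [h1] <;> push_cast <;> linarith
    have h6 := (h4.trans h5).trans hS
    have h7 : (1 - 2 * η ^ 2 : ℝ) ^ R ≤ ((1 - η ^ 2) ^ R) * ((1 - η ^ 2) ^ R) := by
      rw [← mul_pow]
      refine pow_le_pow_left₀ (by nlinarith) ?_ R
      nlinarith [sq_nonneg (η ^ 2)]
    have h8 : (1 - η ^ 2) ^ (4 ^ (m + 1)) ≤ (1 : ℝ) / 2 := by
      have h9 : η ^ 2 = 1 / 4 ^ (m + 1) := by
        rw [hη, div_pow, one_pow, ← pow_mul, mul_comm (m + 1) 2, pow_mul]
        norm_num
      have h10 : 1 - η ^ 2 ≤ Real.exp (-(η ^ 2)) := by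
        have := Real.add_one_le_exp (-(η ^ 2))
        linarith
      calc (1 - η ^ 2) ^ (4 ^ (m + 1)) ≤ (Real.exp (-(η ^ 2))) ^ (4 ^ (m + 1)) :=
            pow_le_pow_left₀ h3 h10 _
        _ = Real.exp (-1) := by
            rw [← Real.exp_nat_mul, h9]
            congr 1
            push_cast
            field_simp
        _ ≤ 1 / 2 := by
            rw [Real.exp_neg, ← one_div]
            apply one_div_le_one_div_of_le (by norm_num)
            have := Real.add_one_le_exp 1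
            linarith
    have h9 : (1 - η ^ 2) ^ R ≤ (1 / 2 : ℝ) ^ (l + 1) := by
      rw [hR, pow_mul]
      exact pow_le_pow_left₀ (pow_nonneg h3 _) h8 _
    have h10 : ((Z : ℝ) + 1) * (1 - η ^ 2) ^ R ≤ 1 / 2 := by
      have h11 : ((Z : ℝ) + 1) ≤ 2 ^ l := by exact_mod_cast hZ
      calc ((Z : ℝ) + 1) * (1 - η ^ 2) ^ R ≤ 2 ^ l * (1 / 2 : ℝ) ^ (l + 1) :=
            mul_le_mul h11 h9 (pow_nonneg h3 _) (by positivity)
        _ = 1 / 2 := by
            rw [pow_succ, ← mul_assoc, ← mul_pow]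
            norm_num
    have h11 : (0 : ℝ) < (1 - η ^ 2) ^ R := pow_pos h3' R
    have h12 : (1 - η ^ 2) ^ R ≤ (1 / 2) * (1 - η ^ 2) ^ R :=
      calc (1 - η ^ 2) ^ R ≤ ((Z : ℝ) + 1) * (1 - 2 * η ^ 2) ^ R := h6
        _ ≤ ((Z : ℝ) + 1) * (((1 - η ^ 2) ^ R) * ((1 - η ^ 2) ^ R)) :=
            mul_le_mul_of_nonneg_left h7 (by positivity)
        _ = (((Z : ℝ) + 1) * (1 - η ^ 2) ^ R) * (1 - η ^ 2) ^ R := by ring
        _ ≤ (1 / 2) * (1 - η ^ 2) ^ R := mul_le_mul_of_nonneg_right h10 h11.le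
    linarith
  intro x hx
  have h1 := key x hx
  rw [← Finset.sum_mul] at h1
  unfold sg at h1
  by_cases hf : f x
  · rw [if_pos hf, mul_one] at h1
    exact ⟨fun _ => h1, fun _ => hf⟩
  · rw [if_neg hf] at h1
    refine ⟨fun h => absurd h hf, fun h => ?_⟩
    omega

end Pool.Agent.W894.LIO
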