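import Pool.Agent.Helper626.NatRec

/-!
Relations on the natural numbers which are defined by bounded formulas, over contexts which are
products of copies of `ℕ`.
-/

set_option autoImplicit false

namespace Pool.Agent.W894.LIO

open Pool.Agent.Helper626

/-- contexts: (nested) products of copies of the natural numbers -/
class Cx (α : Type) where
  /-- functions all of whose coordinates are given by terms -/
  T : ∀ {m : ℕ}, ((Fin m → ℕ) → α) → Prop
  /-- the size of an element -/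
  sz : α → ℕ
  T_comp : ∀ {m n : ℕ} {g : (Fin m → ℕ) → α} {h : Fin m → (Fin n → ℕ) → ℕ}, T g →
    (∀ i, T0 false (h i)) → T (fun v => g (fun i => h i v))
  T_sz : ∀ {m : ℕ} {g : (Fin m → ℕ) → α}, T g → T0 false (fun v => sz (g v))

instance : Cx ℕ where
  T g := T0 false g
  sz a := a
  T_comp hg hh := hg.comp hh
  T_sz hg := hg

instance {α β : Type} [Cx α] [Cx β] : Cx (α × β) where
  T g := Cx.T (fun v => (g v).1) ∧ Cx.T (fun v => (g v).2)
  sz a := Cx.sz a.1 + Cx.sz a.2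
  T_comp hg hh := ⟨Cx.T_comp hg.1 hh, Cx.T_comp hg.2 hh⟩
  T_sz hg := (Cx.T_sz hg.1).add (Cx.T_sz hg.2)

instance : Cx Unit where
  T _ := True
  sz _ := 0
  T_comp _ _ := trivial
  T_sz _ := T0.zero

section

variable {α β γ δ : Type} [Cx α] [Cx β] [Cx γ] [Cx δ]

theorem Cx.T_init {m : ℕ} {g : (Fin m → ℕ) → α} (hg : Cx.T g) :
    Cx.T (fun w : Fin (m + 1) → ℕ => g (Fin.init w)) :=
  Cx.T_comp (h := fun i (w : Fin (m + 1) → ℕ) => w i.castSucc) hg (fun _ => T0.var _)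

/-- predicates defined by bounded formulas -/
def DP (P : α → Prop) : Prop :=
  ∀ (m : ℕ) (g : (Fin m → ℕ) → α), Cx.T g → D0 false (fun v => P (g v))

/-- functions which may be substituted in bounded formulas -/
structure DF (f : α → β) : Prop where
  sub : ∀ (δ : Type) [Cx δ] (P : δ × β → Prop), DP P → DP (fun p : δ × α => P (p.1, f p.2))
  bdd : ∃ k : ℕ, ∀ a, Cx.sz (f a) ≤ (Cx.sz a + 2) ^ k

theorem T0.npow {n : ℕ} {s : (Fin n → ℕ) → ℕ} (hs : T0 false s) :
    ∀ k : ℕ, T0 false (fun v => s v ^ k)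
  | 0 => by
    simp only [pow_zero]
    exact T0.one
  | k + 1 => by
    simp only [pow_succ]
    exact (T0.npow hs k).mul hs

theorem DP.of_iff {P Q : α → Prop} (h : DP P) (H : ∀ v, Q v ↔ P v) : DP Q := by
  have : Q = P := funext fun v => propext (H v)
  rw [this]
  exact h

theorem DP.fls : DP (fun _ : α => False) := fun _ _ _ => D0.fls

theorem DP.tru : DP (fun _ : α => True) := fun _ _ _ => D0.tru

theorem DP.imp {P Q : α → Prop} (h : DP P) (h' : DP Q) : DP (fun a => P a → Q a) :=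
  fun m g hg => (h m g hg).imp (h' m g hg)

theorem DP.not {P : α → Prop} (h : DP P) : DP (fun a => ¬ P a) := fun m g hg => (h m g hg).not

theorem DP.and {P Q : α → Prop} (h : DP P) (h' : DP Q) : DP (fun a => P a ∧ Q a) :=
  fun m g hg => (h m g hg).and (h' m g hg)

theorem DP.or {P Q : α → Prop} (h : DP P) (h' : DP Q) : DP (fun a => P a ∨ Q a) :=
  fun m g hg => (h m g hg).or (h' m g hg)

theorem DP.iff {P Q : α → Prop} (h : DP P) (h' : DP Q) : DP (fun a => P a ↔ Q a) :=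
  ((h.imp h').and (h'.imp h)).of_iff fun _ => ⟨fun h => ⟨h.1, h.2⟩, fun h => ⟨h.1, h.2⟩⟩

theorem DP.const (p : Prop) : DP (fun _ : α => p) := by
  by_cases h : p
  · exact DP.tru.of_iff fun _ => by simp [h]
  · exact DP.fls.of_iff fun _ => by simp [h]

theorem DP.all_fin {r : ℕ} {Q : Fin r → α → Prop} (h : ∀ i, DP (Q i)) :
    DP (fun v => ∀ i, Q i v) := by
  induction r with
  | zero => exact DP.tru.of_iff fun v => by simp
  | succ r ih =>
    refine ((ih (Q := fun i => Q (Fin.castSucc i)) (fun i => h _)).and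
      (h (Fin.last r))).of_iff fun v => ?_
    constructor
    · intro h
      exact ⟨fun i => h _, h _⟩
    · rintro ⟨h1, h2⟩ i
      exact Fin.lastCases h2 h1 i

theorem DP.ex_fin {r : ℕ} {Q : Fin r → α → Prop} (h : ∀ i, DP (Q i)) :
    DP (fun v => ∃ i, Q i v) :=
  (DP.all_fin (fun i => (h i).not)).not.of_iff fun v => by
    push Not
    rfl

theorem DP.comp {P : β → Prop} {f : α → β} (hP : DP P) (hf : DF f) : DP (fun a => P (f a)) := by
  have h1 : DP (fun p : Unit × β => P p.2) := fun m g hg => hP m _ hg.2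
  have h2 := hf.sub Unit _ h1
  intro m g hg
  exact h2 m (fun v => ((), g v)) ⟨trivial, hg⟩

theorem bnd_mono {a k l : ℕ} (h : k ≤ l) : (a + 2) ^ k ≤ (a + 2) ^ l :=
  Nat.pow_le_pow_right (by omega) h

theorem DF.id : DF (fun a : α => a) where
  sub _ _ P hP := hP
  bdd := ⟨1, fun a => by rw [pow_one]; omega⟩

theorem DF.comp {f : β → γ} {g : α → β} (hf : DF f) (hg : DF g) : DF (fun a => f (g a)) where
  sub δ _ P hP := hg.sub δ _ (hf.sub δ P hP)
  bdd := by
    obtain ⟨k, hk⟩ := hf.bdd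
    obtain ⟨l, hl⟩ := hg.bdd
    refine ⟨(l + 2) * k, fun a => (hk _).trans ?_⟩
    rw [pow_mul]
    refine Nat.pow_le_pow_left ?_ _
    have h1 := hl a
    have h2 : 1 ≤ (Cx.sz a + 2) ^ l := Nat.one_le_pow _ _ (by omega)
    rw [pow_add]
    have h3 : 4 ≤ (Cx.sz a + 2) ^ 2 := by nlinarith [Nat.zero_le (Cx.sz a)]
    nlinarith

theorem DF.fst : DF (fun p : α × β => p.1) where
  sub δ _ P hP := fun m g hg => hP m (fun v => ((g v).1, (g v).2.1)) ⟨hg.1, hg.2.1⟩
  bdd := ⟨1, fun a => by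
    change Cx.sz a.1 ≤ (Cx.sz a.1 + Cx.sz a.2 + 2) ^ 1
    rw [pow_one]; omega⟩

theorem DF.snd : DF (fun p : α × β => p.2) where
  sub δ _ P hP := fun m g hg => hP m (fun v => ((g v).1, (g v).2.2)) ⟨hg.1, hg.2.2⟩
  bdd := ⟨1, fun a => by
    change Cx.sz a.2 ≤ (Cx.sz a.1 + Cx.sz a.2 + 2) ^ 1
    rw [pow_one]; omega⟩

theorem DF.fst' {f : γ → α × β} (hf : DF f) : DF (fun a => (f a).1) := DF.fst.comp hf

theorem DF.snd' {f : γ → α × β} (hf : DF f) : DF (fun a => (f a).2) := DF.snd.comp hf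

theorem DF.prod {f : α → β} {g : α → γ} (hf : DF f) (hg : DF g) : DF (fun a => (f a, g a)) where
  sub δ _ P hP := by
    have h1 : DP (fun q : (δ × γ) × β => P (q.1.1, (q.2, q.1.2))) :=
      fun m g hg => hP m (fun v => ((g v).1.1, ((g v).2, (g v).1.2))) ⟨hg.1.1, hg.2, hg.1.2⟩
    have h2 := hf.sub (δ × γ) _ h1
    have h3 : DP (fun q : (δ × α) × γ => P (q.1.1, (f q.1.2, q.2))) :=
      fun m g hg => h2 m (fun v => (((g v).1.1, (g v).2), (g v).1.2)) ⟨⟨hg.1.1, hg.2⟩, hg.1.2⟩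
    have h4 := hg.sub (δ × α) _ h3
    intro m g' hg'
    exact h4 m (fun v => (((g' v).1, (g' v).2), (g' v).2)) ⟨⟨hg'.1, hg'.2⟩, hg'.2⟩
  bdd := by
    obtain ⟨k, hk⟩ := hf.bdd
    obtain ⟨l, hl⟩ := hg.bdd
    refine ⟨k + l + 1, fun a => ?_⟩
    change Cx.sz (f a) + Cx.sz (g a) ≤ _
    have h1 := (hk a).trans (bnd_mono (a := Cx.sz a) (Nat.le_add_right k l))
    have h2 := (hl a).trans (bnd_mono (a := Cx.sz a) (Nat.le_add_left l k))
    rw [pow_succ]
    have h3 : 1 ≤ (Cx.sz a + 2) ^ (k + l) := Nat.one_le_pow _ _ (by omega)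
    nlinarith

theorem DF.of_term {f : α → ℕ}
    (h : ∀ (m : ℕ) (g : (Fin m → ℕ) → α), Cx.T g → T0 false (fun v => f (g v)))
    (hb : ∃ k : ℕ, ∀ a, f a ≤ (Cx.sz a + 2) ^ k) : DF f where
  sub δ _ P hP := fun m g hg => hP m (fun v => ((g v).1, f (g v).2)) ⟨hg.1, h m _ hg.2⟩
  bdd := hb

theorem DF.of_graph {f : α → ℕ} (h : DP (fun p : α × ℕ => f p.1 = p.2))
    (hb : ∃ k : ℕ, ∀ a, f a ≤ (Cx.sz a + 2) ^ k) : DF f where
  sub δ _ P hP := by
    intro m g hg
    obtain ⟨k, hk⟩ := hb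
    have ht : T0 false (fun v => (Cx.sz (g v).2 + 2) ^ k + 1) :=
      (T0.npow ((Cx.T_sz hg.2).add (T0.const 2)) k).add T0.one
    refine (D0.bex (Q := fun v x => f (g v).2 = x ∧ P ((g v).1, x)) ht ?_).of_iff fun v => ?_
    · refine D0.and ?_ ?_
      · exact h (m + 1) (fun w => ((g (Fin.init w)).2, w (Fin.last m)))
          ⟨Cx.T_init hg.2, T0.last⟩
      · exact hP (m + 1) (fun w => ((g (Fin.init w)).1, w (Fin.last m)))
          ⟨Cx.T_init hg.1, T0.last⟩
    · constructor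
      · intro h
        exact ⟨_, Nat.lt_succ_of_le (hk _), rfl, h⟩
      · rintro ⟨x, _, rfl, h⟩
        exact h
  bdd := hb

theorem DF.const (k : ℕ) : DF (fun _ : α => k) :=
  DF.of_term (fun _ _ _ => T0.const k) ⟨k, fun a => (Nat.lt_pow_self (by omega)).le⟩

theorem DF.add {f g : α → ℕ} (hf : DF f) (hg : DF g) : DF (fun a => f a + g a) := by
  have h : DF (fun p : ℕ × ℕ => p.1 + p.2) :=
    DF.of_term (fun m g hg => hg.1.add hg.2) ⟨1, fun a => by
      change a.1 + a.2 ≤ (a.1 + a.2 + 2) ^ 1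
      rw [pow_one]; omega⟩
  exact h.comp (hf.prod hg)

theorem DF.mul {f g : α → ℕ} (hf : DF f) (hg : DF g) : DF (fun a => f a * g a) := by
  have h : DF (fun p : ℕ × ℕ => p.1 * p.2) :=
    DF.of_term (fun m g hg => hg.1.mul hg.2) ⟨2, fun a => by
      change a.1 * a.2 ≤ (a.1 + a.2 + 2) ^ 2
      nlinarith [Nat.zero_le a.1, Nat.zero_le a.2, Nat.zero_le (a.1 * a.2)]⟩
  exact h.comp (hf.prod hg)

theorem DF.npow {f : α → ℕ} (hf : DF f) : ∀ k : ℕ, DF (fun a => f a ^ k)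
  | 0 => by
    simp only [pow_zero]
    exact DF.const 1
  | k + 1 => by
    simp only [pow_succ]
    exact (DF.npow hf k).mul hf

theorem DP.eq {f g : α → ℕ} (hf : DF f) (hg : DF g) : DP (fun a => f a = g a) := by
  have h : DP (fun p : ℕ × ℕ => p.1 = p.2) := fun m g hg => D0.eq hg.1 hg.2
  exact h.comp (hf.prod hg)

theorem DP.lt {f g : α → ℕ} (hf : DF f) (hg : DF g) : DP (fun a => f a < g a) := by
  have h : DP (fun p : ℕ × ℕ => p.1 < p.2) := fun m g hg => D0.lt hg.1 hg.2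
  exact h.comp (hf.prod hg)

theorem DP.le {f g : α → ℕ} (hf : DF f) (hg : DF g) : DP (fun a => f a ≤ g a) := by
  have h : DP (fun p : ℕ × ℕ => p.1 ≤ p.2) := fun m g hg => D0.le hg.1 hg.2
  exact h.comp (hf.prod hg)

theorem DP.bex {f : α → ℕ} {Q : α → ℕ → Prop} (hf : DF f)
    (hQ : DP (fun p : α × ℕ => Q p.1 p.2)) : DP (fun a => ∃ x, x < f a ∧ Q a x) := by
  have h0 : DP (fun p : α × ℕ => p.2 < f p.1 ∧ Q p.1 p.2) := (DP.lt DF.snd (hf.comp DF.fst)).and hQ
  intro m g hg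
  obtain ⟨k, hk⟩ := hf.bdd
  have ht : T0 false (fun v => (Cx.sz (g v) + 2) ^ k) :=
    T0.npow ((Cx.T_sz hg).add (T0.const 2)) k
  refine (D0.bex (Q := fun v x => x < f (g v) ∧ Q (g v) x) ht ?_).of_iff fun v => ?_
  · exact h0 (m + 1) (fun w => (g (Fin.init w), w (Fin.last m))) ⟨Cx.T_init hg, T0.last⟩
  · constructor
    · rintro ⟨x, h1, h2⟩
      exact ⟨x, lt_of_lt_of_le h1 (hk _), h1, h2⟩
    · rintro ⟨x, _, h1, h2⟩
      exact ⟨x, h1, h2⟩

theorem DP.ball {f : α → ℕ} {Q : α → ℕ → Prop} (hf : DF f)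
    (hQ : DP (fun p : α × ℕ => Q p.1 p.2)) : DP (fun a => ∀ x, x < f a → Q a x) :=
  (DP.bex (Q := fun a x => ¬ Q a x) hf hQ.not).not.of_iff fun v => by
    push Not
    rfl

theorem DP.bexle {f : α → ℕ} {Q : α → ℕ → Prop} (hf : DF f)
    (hQ : DP (fun p : α × ℕ => Q p.1 p.2)) : DP (fun a => ∃ x, x ≤ f a ∧ Q a x) :=
  (DP.bex (hf.add (DF.const 1)) hQ).of_iff fun v => by simp only [Nat.lt_succ_iff]

theorem DP.balle {f : α → ℕ} {Q : α → ℕ → Prop} (hf : DF f)
    (hQ : DP (fun p : α × ℕ => Q p.1 p.2)) : DP (fun a => ∀ x, x ≤ f a → Q a x) :=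
  (DP.ball (hf.add (DF.const 1)) hQ).of_iff fun v => by simp only [Nat.lt_succ_iff]

theorem DF.npair {f g : α → ℕ} (hf : DF f) (hg : DF g) : DF (fun a => Nat.pair (f a) (g a)) := by
  have h : DF (fun p : ℕ × ℕ => Nat.pair p.1 p.2) :=
    DF.of_graph (fun m g hg => D0.pair hg.1.1 hg.1.2 hg.2) ⟨2, fun a => by
      change _ ≤ (a.1 + a.2 + 2) ^ 2
      unfold Nat.pair
      split <;> nlinarith [Nat.zero_le a.1, Nat.zero_le a.2, Nat.zero_le (a.1 * a.2)]⟩
  exact h.comp (hf.prod hg)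

theorem DF.beta {f g : α → ℕ} (hf : DF f) (hg : DF g) : DF (fun a => Nat.beta (f a) (g a)) := by
  have h : DF (fun p : ℕ × ℕ => Nat.beta p.1 p.2) :=
    DF.of_graph (fun m g hg => D0.beta hg.1.1 hg.1.2 hg.2) ⟨1, fun a => by
      change _ ≤ (a.1 + a.2 + 2) ^ 1
      rw [pow_one]
      have h1 : Nat.beta a.1 a.2 ≤ a.1.unpair.1 := Nat.mod_le _ _
      have h2 := Nat.unpair_left_le a.1
      omega⟩
  exact h.comp (hf.prod hg)

/-- the least `x < f a` with `P a x` (and `0` if there is none) -/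
theorem DF.least {b : α → ℕ} {P : α → ℕ → Prop} {F : α → ℕ} (hb : DF b)
    (hP : DP (fun p : α × ℕ => P p.1 p.2))
    (h1 : ∀ a, F a ≤ b a) (h2 : ∀ a, P a (F a)) (h3 : ∀ a x, x < F a → ¬ P a x) : DF F := by
  refine DF.of_graph ?_ ?_
  · have : DP (fun p : α × ℕ => p.2 ≤ b p.1 ∧ P p.1 p.2 ∧ ∀ x, x < p.2 → ¬ P p.1 x) := by
      refine DP.and (DP.le DF.snd (hb.comp DF.fst)) (DP.and hP (DP.ball DF.snd ?_))
      exact (hP.comp (DF.prod DF.fst.fst' DF.snd)).not
    refine this.of_iff fun p => ?_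
    constructor
    · rintro h
      rw [← h]
      exact ⟨h1 _, h2 _, h3 _⟩
    · rintro ⟨_, h5, h6⟩
      rcases lt_trichotomy (F p.1) p.2 with h | h | h
      · exact absurd (h2 p.1) (h6 _ h)
      · exact h
      · exact absurd h5 (h3 _ _ h)
  · obtain ⟨k, hk⟩ := hb.bdd
    exact ⟨k, fun a => (h1 a).trans (hk a)⟩

end

/-- bounded formulas give definable predicates -/
theorem DP.of_D0_one {α : Type} [Cx α] {P : (Fin 1 → ℕ) → Prop} (hP : D0 false P) {f : α → ℕ}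
    (hf : DF f) : DP (fun a => P ![f a]) := by
  have h : DP (fun x : ℕ => P ![x]) := by
    intro m g hg
    have h1 : T0 false g := hg
    refine (hP.comp (t := fun _ v => g v) (fun _ => h1)).of_iff fun v => ?_
    have : (![g v] : Fin 1 → ℕ) = fun _ => g v := by
      funext i
      fin_cases i
      rfl
    beta_reduce
    rw [this]
  exact h.comp hf

/-- definable predicates are given by bounded formulas -/
theorem DP.syn3 {P : ℕ × ℕ × ℕ → Prop} (hP : DP P) :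
    ∃ φ : Fml false 3, IsDelta0 φ ∧ ∀ v : Fin 3 → ℕ, Sat φ v ↔ P (v 0, v 1, v 2) :=
  (hP 3 (fun v => (v 0, v 1, v 2)) ⟨T0.var _, T0.var _, T0.var _⟩).syn

end Pool.Agent.W894.LIO
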