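import Pool.Agent.Helper626.ArithDefs

/-!
Numerals and standard powers in structures for the language of arithmetic.
-/

set_option autoImplicit false

namespace Pool.Agent.W894.LIO

open Pool.Agent.Helper626

/-- The value of the numeral of the natural number `k` in `M`: `0 + 1 + ... + 1`. -/
def numeral {M : Type} [ArithOps M] : ℕ → M
  | 0 => 0
  | k + 1 => numeral k + 1

/-- The power `a ^ n` in `M` with a standard exponent `n`: `1 * a * ... * a`. -/
def stdPow {M : Type} [ArithOps M] (a : M) : ℕ → M
  | 0 => 1
  | n + 1 => stdPow a n * a

end Pool.Agent.W894.LIO
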