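import Pool.Agent.W894.LIO.Trans

/-!
The first candidate for a universal formula.
-/

set_option autoImplicit false

namespace Pool.Agent.W894.LIO

open Pool.Agent.Helper626

theorem DF.beConst {α : Type} [Cx α] {f g : α → ℕ} (hf : DF f) (hg : DF g) :
    DF (fun a => Be (f a) (g a)) := by
  unfold Be
  exact (DF.const 2).mul (((hf.add (DF.const 1)).mul (((hf.add (DF.const 2)).add
    ((hf.add (DF.const 1)).mul (hf.add (DF.const 1)))).add hg)).add (DF.const 1))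

theorem DF.bdConst {α : Type} [Cx α] {f : α → ℕ} (N : ℕ) (hf : DF f) :
    DF (fun a => Bd N (f a)) := by
  unfold Bd
  exact DF.npow ((DF.npow ((DF.const (N + 2)).mul ((DF.const (N + 1).factorial).mul
    (hf.add (DF.const 1)))) (N + 1)).add (DF.const 1)) 2

theorem DF.sumFin {α : Type} [Cx α] {r : ℕ} {f : Fin r → α → ℕ} (hf : ∀ i, DF (f i)) :
    DF (fun a => ∑ i, f i a) := by
  induction r with
  | zero =>
    simp only [Finset.univ_eq_empty, Finset.sum_empty]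
    exact DF.const 0
  | succ r ih =>
    simp only [Fin.sum_univ_castSucc]
    exact (ih (f := fun i => f i.castSucc) (fun i => hf _)).add (hf _)

/-- the guard: `x` is small compared with `a` -/
def Gd (x a : ℕ) : Prop := Be ((x + 1) ^ 2) 1 ≤ a

/-- truth of `c` at `u` in `[0, s]`, for `x = ⟨s, B, c, u⟩` -/
def ff (x : ℕ) : Prop :=
  x.unpair.2.unpair.2.unpair.2 ≤ x.unpair.2.unpair.1 ∧
    T x.unpair.1 x.unpair.2.unpair.1 x.unpair.2.unpair.2.unpair.1 x.unpair.2.unpair.2.unpair.2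

theorem ff_pair (s B c u : ℕ) :
    ff (Nat.pair s (Nat.pair B (Nat.pair c u))) ↔ u ≤ B ∧ T s B c u := by
  unfold ff
  simp only [Nat.unpair_pair]

/-- truth by a table below `y` -/
def Tab (y s B c u : ℕ) : Prop :=
  ∃ W, W ≤ y ∧ (∀ c', c' ≤ c → ∀ u', u' ≤ B → (Nat.beta W (Nat.pair c' u') = 1 ↔
    Loc (fun c'' u'' => Nat.beta W (Nat.pair c'' u'') = 1) s B c' u')) ∧
    Nat.beta W (Nat.pair c u) = 1

theorem Tab_sound {y s B c u : ℕ} (hu : u ≤ B) (h : Tab y s B c u) : T s B c u := by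
  obtain ⟨W, _, h1, h2⟩ := h
  exact (T_unique h1 c le_rfl u hu).1 h2

theorem Tab_complete {y s B c u : ℕ} (hu : u ≤ B) (h : T s B c u)
    (hy : Bd (Nat.pair c B) 1 ≤ y) : Tab y s B c u := by
  classical
  obtain ⟨W, _, hW1, hW2⟩ := exists_beta (Nat.pair c B) 1
    (fun i => if T s B i.unpair.1 i.unpair.2 then 1 else 0) (by
      intro i _
      beta_reduce
      split <;> omega)
  have hle : ∀ c', c' ≤ c → ∀ u', u' ≤ B → Nat.pair c' u' ≤ Nat.pair c B := by
    intro c' hc' u' hu'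
    have h1 : Nat.pair c' u' ≤ Nat.pair c u' := by
      rcases Nat.lt_or_eq_of_le hc' with h | h
      · exact (Nat.pair_lt_pair_left _ h).le
      · rw [h]
    have h2 : Nat.pair c u' ≤ Nat.pair c B := by
      rcases Nat.lt_or_eq_of_le hu' with h | h
      · exact (Nat.pair_lt_pair_right _ h).le
      · rw [h]
    exact h1.trans h2
  have key : ∀ c', c' ≤ c → ∀ u', u' ≤ B → (Nat.beta W (Nat.pair c' u') = 1 ↔ T s B c' u') := by
    intro c' hc' u' hu'
    rw [hW2 _ (hle c' hc' u' hu')]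
    simp only [Nat.unpair_pair]
    by_cases h : T s B c' u' <;> simp [h]
  refine ⟨W, hW1.trans hy, ?_, (key c le_rfl u hu).2 h⟩
  intro c' hc' u' hu'
  rw [key c' hc' u' hu', T_iff]
  apply Loc.congr
  intro c'' u'' h1 h2
  refine (key c'' (by omega) u'' ?_).symm
  rcases h2 with h2 | h2
  · rw [h2]; exact hu'
  · exact h2

/-- the first candidate -/
def G1 (a y z : ℕ) : Prop :=
  Gd (Nat.beta a z) a ∧ ∃ s, s ≤ a ∧ ∃ B, B ≤ a ∧ ∃ c, c ≤ a ∧ ∃ u, u ≤ a ∧
    Nat.beta a z = Nat.pair s (Nat.pair B (Nat.pair c u)) ∧ u ≤ B ∧ Tab y s B c u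

theorem G1_iff {a y : ℕ} (hy : 2 ^ a ≤ y) (z : ℕ) :
    G1 a y z ↔ Gd (Nat.beta a z) a ∧ ff (Nat.beta a z) := by
  unfold G1
  refine and_congr_right fun hg => ?_
  constructor
  · rintro ⟨s, _, B, _, c, _, u, _, h1, h2, h3⟩
    rw [h1, ff_pair]
    exact ⟨h2, Tab_sound h2 h3⟩
  · intro h
    have ha : Nat.beta a z ≤ a := beta_le a z
    obtain ⟨s, r1, hx1⟩ : ∃ s r, Nat.pair s r = Nat.beta a z := ⟨_, _, Nat.pair_unpair _⟩
    obtain ⟨B, r2, hx2⟩ : ∃ s r, Nat.pair s r = r1 := ⟨_, _, Nat.pair_unpair _⟩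
    obtain ⟨c, u, hx3⟩ : ∃ s r, Nat.pair s r = r2 := ⟨_, _, Nat.pair_unpair _⟩
    have hx : Nat.beta a z = Nat.pair s (Nat.pair B (Nat.pair c u)) := by
      rw [hx3, hx2, hx1]
    rw [hx, ff_pair] at h
    have l1 := Nat.left_le_pair s r1
    have l2 := Nat.right_le_pair s r1
    have l3 := Nat.left_le_pair B r2
    have l4 := Nat.right_le_pair B r2
    have l5 := Nat.left_le_pair c u
    have l6 := Nat.right_le_pair c u
    refine ⟨s, by omega, B, by omega, c, by omega, u, by omega, hx, h.1, ?_⟩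
    refine Tab_complete h.1 h.2 (le_trans ?_ hy)
    have h1 : Bd (Nat.pair c B) 1 ≤ 2 ^ Be (Nat.pair c B) 1 := Bd_le_two_pow (by norm_num)
    refine h1.trans (Nat.pow_le_pow_right (by norm_num) ?_)
    refine le_trans ?_ hg
    refine Be_mono ?_ le_rfl
    refine (Nat.pair_lt_max_add_one_sq c B).le.trans (Nat.pow_le_pow_left ?_ 2)
    have : max c B ≤ Nat.beta a z := max_le (by omega) (by omega)
    omega

theorem DP.tab : DP (fun p : ℕ × ℕ × ℕ × ℕ × ℕ =>
    Tab p.1 p.2.1 p.2.2.1 p.2.2.2.1 p.2.2.2.2) := by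
  unfold Tab
  refine DP.bexle ?_ (DP.and (DP.balle ?_ (DP.balle ?_ (DP.iff (DP.eq ?_ (DF.const 1))
    (DP.loc (DP.eq ?_ (DF.const 1)) ?_ ?_ ?_ ?_)))) (DP.eq ?_ (DF.const 1)))
  all_goals
    repeat (first | exact DF.id | apply DF.npair | apply DF.beta | apply DF.fst' | apply DF.snd')

theorem DP.g1 : DP (fun p : ℕ × ℕ × ℕ => G1 p.1 p.2.1 p.2.2) := by
  unfold G1 Gd
  refine DP.and (DP.le (DF.beConst (DF.npow (DF.add ?_ (DF.const 1)) 2) (DF.const 1)) ?_)
    (DP.bexle ?_ (DP.bexle ?_ (DP.bexle ?_ (DP.bexle ?_ (DP.and (DP.eq ?_ ?_)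
      (DP.and (DP.le ?_ ?_) (DP.tab.comp (DF.prod ?_ (DF.prod ?_ (DF.prod ?_
        (DF.prod ?_ ?_)))))))))))
  all_goals
    repeat (first | exact DF.id | apply DF.npair | apply DF.beta | apply DF.fst' | apply DF.snd')

end Pool.Agent.W894.LIO
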