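import Pool.Agent.W894.LIO.G1
import Pool.Agent.W894.LIO.Boost

/-!
The second candidate for a universal formula.
-/

set_option autoImplicit false
set_option maxHeartbeats 4000000

namespace Pool.Agent.W894.LIO

open Pool.Agent.Helper626

section

variable {m : ℕ}

/-- `z` codes the tuple `x` at the places `e` -/
def GoodA (e : Fin m → ℕ) (x : Fin m → ℕ) (z : ℕ) : Prop :=
  ∀ j, Nat.beta z (e j) = x j ∧ Gd (x j) z

/-- the least code of `x` -/
noncomputable def Am (e : Fin m → ℕ) (x : Fin m → ℕ) : ℕ := sInf {z | GoodA e x z}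

/-- a bound for `Am` -/
def bA (e : Fin m → ℕ) (x : Fin m → ℕ) : ℕ := Bd (∑ j, e j) (∑ j, Be ((x j + 1) ^ 2) 1)

theorem le_Be (x : ℕ) : x ≤ Be ((x + 1) ^ 2) 1 := by
  unfold Be
  nlinarith [Nat.zero_le x, Nat.zero_le (x ^ 2), Nat.zero_le (((x + 1) ^ 2 + 1) * ((x + 1) ^ 2 + 1))]

theorem exists_goodA {e : Fin m → ℕ} (he : Function.Injective e) (x : Fin m → ℕ) :
    ∃ z, z ≤ bA e x ∧ GoodA e x z := by
  classical
  obtain ⟨z, h1, h2, h3⟩ := exists_beta (∑ j, e j) (∑ j, Be ((x j + 1) ^ 2) 1)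
    (fun i => ∑ j, if e j = i then x j else 0) (by
      intro i _
      refine Finset.sum_le_sum fun j _ => ?_
      split
      · exact le_Be _
      · exact Nat.zero_le _)
  refine ⟨z, h2, fun j => ⟨?_, ?_⟩⟩
  · rw [h3 (e j) (Finset.single_le_sum (f := e) (fun _ _ => Nat.zero_le _) (Finset.mem_univ j))]
    rw [Finset.sum_eq_single j]
    · simp
    · intro b _ hb
      rw [if_neg (fun h => hb (he h))]
    · intro h
      exact absurd (Finset.mem_univ j) h
  · unfold Gd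
    exact (Finset.single_le_sum (f := fun j => Be ((x j + 1) ^ 2) 1) (fun _ _ => Nat.zero_le _)
      (Finset.mem_univ j)).trans h1

theorem Am_good {e : Fin m → ℕ} (he : Function.Injective e) (x : Fin m → ℕ) :
    GoodA e x (Am e x) := by
  obtain ⟨z, _, hz⟩ := exists_goodA he x
  exact Nat.sInf_mem (s := {z | GoodA e x z}) ⟨z, hz⟩

theorem Am_le {e : Fin m → ℕ} (he : Function.Injective e) (x : Fin m → ℕ) :
    Am e x ≤ bA e x := by
  obtain ⟨z, hz1, hz⟩ := exists_goodA he x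
  exact (Nat.sInf_le (s := {z | GoodA e x z}) hz).trans hz1

theorem DF.am {α : Type} [Cx α] {e : Fin m → ℕ} (he : Function.Injective e)
    {X : Fin m → α → ℕ} (hX : ∀ j, DF (X j)) : DF (fun a => Am e (fun j => X j a)) := by
  refine DF.least (b := fun a => bA e (fun j => X j a))
    (P := fun a z => GoodA e (fun j => X j a) z) ?_ ?_ ?_ ?_ ?_
  · unfold bA
    exact DF.bdConst _ (DF.sumFin fun j =>
      DF.beConst (DF.npow ((hX j).add (DF.const 1)) 2) (DF.const 1))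
  · unfold GoodA Gd
    refine DP.all_fin fun j => DP.and (DP.eq (DF.snd.beta (DF.const (e j)))
      ((hX j).comp DF.fst)) (DP.le ?_ DF.snd)
    exact DF.beConst (DF.npow (((hX j).comp DF.fst).add (DF.const 1)) 2) (DF.const 1)
  · intro a
    exact Am_le he _
  · intro a
    exact Am_good he _
  · intro a x hx h
    exact absurd (Nat.sInf_le (s := {z | GoodA e (fun j => X j a) z}) h) (not_le.2 hx)

/-- position of the `k`-th entry of the `r`-th block -/
def ix (m r k : ℕ) : ℕ := r * (2 * m + 1) + k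

/-- the tuple of the `r`-th block -/
def YW (m W r : ℕ) : Fin m → ℕ := fun i => Nat.beta W (ix m r (1 + i))

/-- the labels of the `r`-th block -/
def BW (m W r : ℕ) : Fin m → Prop := fun i => Nat.beta W (ix m r (1 + m + i)) = 1

/-- the `r`-th predictor votes yes -/
def VT (g : (Fin m → ℕ) → Fin m → Prop) (W r x : ℕ) : Prop :=
  ∃ j : Fin m, Nat.beta W (ix m r 0) = j ∧
    (∀ i : Fin m, i < j → (g (Function.update (YW m W r) j x) i ↔ BW m W r i)) ∧
    ¬ g (Function.update (YW m W r) j x) j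

/-- the `r`-th predictor votes no -/
def VF (g : (Fin m → ℕ) → Fin m → Prop) (W r x : ℕ) : Prop :=
  ∃ j : Fin m, Nat.beta W (ix m r 0) = j ∧
    (∀ i : Fin m, i < j → (g (Function.update (YW m W r) j x) i ↔ BW m W r i)) ∧
    g (Function.update (YW m W r) j x) j

/-- the majority of the predictors says yes -/
def Maj (g : (Fin m → ℕ) → Fin m → Prop) (y W R x : ℕ) : Prop :=
  ∃ σ, σ ≤ y ∧ Nat.beta σ 0 = R ∧ (∀ r, r < R →
    ((VT g W r x ∧ Nat.beta σ (r + 1) = Nat.beta σ r + 1) ∨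
      (VF g W r x ∧ Nat.beta σ (r + 1) + 1 = Nat.beta σ r) ∨
      (¬ VT g W r x ∧ ¬ VF g W r x ∧ Nat.beta σ (r + 1) = Nat.beta σ r))) ∧ R < Nat.beta σ R

theorem vote_VT {g : (Fin m → ℕ) → Fin m → Prop} {W r x : ℕ} {j : Fin m} {y : Fin m → ℕ}
    {b : Fin m → Prop} (hj : Nat.beta W (ix m r 0) = j) (hy : YW m W r = y)
    (hb : ∀ i, (BW m W r i ↔ b i)) :
    (VT g W r x ∧ ¬ VF g W r x ∧ vote g j y b x = 1) ∨
      (VF g W r x ∧ ¬ VT g W r x ∧ vote g j y b x = -1) ∨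
      (¬ VT g W r x ∧ ¬ VF g W r x ∧ vote g j y b x = 0) := by
  have e1 : VT g W r x ↔ ((∀ i : Fin m, i < j → (g (Function.update y j x) i ↔ b i)) ∧
      ¬ g (Function.update y j x) j) := by
    unfold VT
    rw [hy]
    constructor
    · rintro ⟨j', h1, h2, h3⟩
      have : j' = j := Fin.ext (by omega)
      subst this
      exact ⟨fun i hi => (h2 i hi).trans (hb i), h3⟩
    · rintro ⟨h2, h3⟩
      exact ⟨j, hj, fun i hi => (h2 i hi).trans (hb i).symm, h3⟩
  have e2 : VF g W r x ↔ ((∀ i : Fin m, i < j → (g (Function.update y j x) i ↔ b i)) ∧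
      g (Function.update y j x) j) := by
    unfold VF
    rw [hy]
    constructor
    · rintro ⟨j', h1, h2, h3⟩
      have : j' = j := Fin.ext (by omega)
      subst this
      exact ⟨fun i hi => (h2 i hi).trans (hb i), h3⟩
    · rintro ⟨h2, h3⟩
      exact ⟨j, hj, fun i hi => (h2 i hi).trans (hb i).symm, h3⟩
  rw [e1, e2]
  unfold vote
  by_cases h1 : ∀ i : Fin m, i < j → (g (Function.update y j x) i ↔ b i)
  · rw [if_pos h1]
    by_cases h2 : g (Function.update y j x) j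
    · rw [if_pos h2]
      tauto
    · rw [if_neg h2]
      tauto
  · rw [if_neg h1]
    tauto

theorem Maj_iff {g : (Fin m → ℕ) → Fin m → Prop} {y W R x : ℕ} {J : ℕ → Fin m}
    {Y : ℕ → Fin m → ℕ} {b : ℕ → Fin m → Prop}
    (hJ : ∀ r, r < R → Nat.beta W (ix m r 0) = J r) (hY : ∀ r, r < R → YW m W r = Y r)
    (hb : ∀ r, r < R → ∀ i, (BW m W r i ↔ b r i)) (hy : Bd R (2 * R) ≤ y) :
    Maj g y W R x ↔ 0 < ∑ r ∈ Finset.range R, vote g (J r) (Y r) (b r) x := by
  have hv := fun r (hr : r < R) => vote_VT (g := g) (x := x) (hJ r hr) (hY r hr) (hb r hr)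
  constructor
  · rintro ⟨σ, _, h0, h1, h2⟩
    have key : ∀ r, r ≤ R → (Nat.beta σ r : ℤ) = R +
        ∑ i ∈ Finset.range r, vote g (J i) (Y i) (b i) x := by
      intro r
      induction r with
      | zero => intro _; rw [h0]; simp
      | succ r ih =>
        intro hr
        rw [Finset.sum_range_succ, ← add_assoc, ← ih (by omega)]
        rcases hv r (by omega) with ⟨h3, h4, h5⟩ | ⟨h3, h4, h5⟩ | ⟨h3, h4, h5⟩ <;>
          rcases h1 r (by omega) with ⟨h6, h7⟩ | ⟨h6, h7⟩ | ⟨h6, h8, h7⟩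
        · rw [h5]; omega
        · exact absurd h6 h4
        · exact absurd h3 h6
        · exact absurd h6 h4
        · rw [h5]; omega
        · exact absurd h3 h8
        · exact absurd h6 h3
        · exact absurd h6 h4
        · rw [h5]; omega
    have := key R le_rfl
    omega
  · intro h
    have habs : ∀ r, r ≤ R → -(r : ℤ) ≤ ∑ i ∈ Finset.range r, vote g (J i) (Y i) (b i) x ∧
        ∑ i ∈ Finset.range r, vote g (J i) (Y i) (b i) x ≤ r := by
      intro r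
      induction r with
      | zero => intro _; simp
      | succ r ih =>
        intro hr
        rw [Finset.sum_range_succ]
        have := ih (by omega)
        rcases hv r (by omega) with ⟨h3, h4, h5⟩ | ⟨h3, h4, h5⟩ | ⟨h3, h4, h5⟩ <;>
          rw [h5] <;> push_cast <;> omega
    obtain ⟨σ, _, hσ1, hσ2⟩ := exists_beta R (2 * R)
      (fun r => ((R : ℤ) + ∑ i ∈ Finset.range r, vote g (J i) (Y i) (b i) x).toNat) (by
        intro r hr
        have := habs r hr
        omega)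
    have hval : ∀ r, r ≤ R → (Nat.beta σ r : ℤ) =
        R + ∑ i ∈ Finset.range r, vote g (J i) (Y i) (b i) x := by
      intro r hr
      rw [hσ2 r hr]
      have := habs r hr
      rw [Int.toNat_of_nonneg (by omega)]
    refine ⟨σ, hσ1.trans hy, ?_, ?_, ?_⟩
    · have := hval 0 (by omega)
      simpa using this
    · intro r hr
      have h1 := hval r (by omega)
      have h2 := hval (r + 1) (by omega)
      rw [Finset.sum_range_succ, ← add_assoc, ← h1] at h2
      rcases hv r (by omega) with ⟨h3, h4, h5⟩ | ⟨h3, h4, h5⟩ | ⟨h3, h4, h5⟩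
      · exact Or.inl ⟨h3, by rw [h5] at h2; omega⟩
      · exact Or.inr (Or.inl ⟨h3, by rw [h5] at h2; omega⟩)
      · exact Or.inr (Or.inr ⟨h3, h4, by rw [h5] at h2; omega⟩)
    · have := hval R le_rfl
      omega

/-- the predicted truth definition -/
def E2 (g : (Fin m → ℕ) → Fin m → Prop) (y W R s B c u : ℕ) : Prop :=
  Maj g y W R (Nat.pair s (Nat.pair B (Nat.pair c u)))

/-- the predicted truth definition, checked by its recursion -/
def Chk (g : (Fin m → ℕ) → Fin m → Prop) (a y s B c : ℕ) : Prop :=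
  ∃ R, R ≤ y ∧ ∃ W, W ≤ y ∧ (∀ c', c' ≤ c → ∀ u', u' ≤ B → (E2 g y W R s B c' u' ↔
    Loc (fun c'' u'' => E2 g y W R s B c'' u'') s B c' u')) ∧
    ∃ u, u ≤ B ∧ Nat.beta u 0 = a ∧ (∀ i, i ≤ c → (i = 0 ∨ Nat.beta u i = 0)) ∧
      E2 g y W R s B c u

/-- the second candidate -/
def G2 (g : (Fin m → ℕ) → Fin m → Prop) (a y z : ℕ) : Prop :=
  ∃ s, s ≤ y ∧ ∃ B, B ≤ y ∧ ∃ τ, τ ≤ y ∧ Nat.beta τ 0 = 1 ∧
    (∀ i, i < Nat.beta a 0 * Nat.beta a 0 → Nat.beta τ (i + 1) = 2 * Nat.beta τ i) ∧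
    Nat.beta τ (Nat.beta a 0) = s ∧ Nat.beta τ (Nat.beta a 0 * Nat.beta a 0) = B ∧
    Chk g a y s B (Nat.beta a (z + 1))

theorem pow_seq {τ N : ℕ} (h0 : Nat.beta τ 0 = 1)
    (h1 : ∀ i, i < N → Nat.beta τ (i + 1) = 2 * Nat.beta τ i) :
    ∀ i, i ≤ N → Nat.beta τ i = 2 ^ i := by
  intro i
  induction i with
  | zero => intro _; simpa using h0
  | succ i ih =>
    intro hi
    rw [h1 i (by omega), ih (by omega), pow_succ, mul_comm]

theorem Chk_sound {g : (Fin m → ℕ) → Fin m → Prop} {a y s B : ℕ} {G : RF} {K : ℕ} {P : Prop}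
    (has : a ≤ s) (hK : (a + 2) ^ K ≤ s)
    (hG : ∀ (v : ℕ → ℕ) (X s : ℕ), v 0 = a → v 0 ≤ X → (X + 2) ^ K ≤ s → (G.ev s v ↔ P))
    (hB : Bd G.code s ≤ B) (h : Chk g a y s B G.code) : P := by
  obtain ⟨R, _, W, _, h1, u, hu, h2, h3, h4⟩ := h
  rw [T_unique h1 G.code le_rfl u hu, T_ev G u ?_ (Adq.of_Bd hB)] at h4
  · exact (hG (Nat.beta u) a s h2 h2.le hK).1 h4
  · intro i hi
    rcases h3 i hi with h5 | h5
    · rw [h5, h2]; exact has
    · rw [h5]; exact Nat.zero_le _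

theorem Chk_complete {g : (Fin m → ℕ) → Fin m → Prop} {a y s B R W : ℕ} {G : RF} {K : ℕ}
    {P : Prop} (has : a ≤ s) (hK : (a + 2) ^ K ≤ s)
    (hG : ∀ (v : ℕ → ℕ) (X s : ℕ), v 0 = a → v 0 ≤ X → (X + 2) ^ K ≤ s → (G.ev s v ↔ P))
    (hB : Bd G.code s ≤ B) (hR : R ≤ y) (hW : W ≤ y)
    (hE : ∀ c', c' ≤ G.code → ∀ u', u' ≤ B → (E2 g y W R s B c' u' ↔ T s B c' u'))
    (hP : P) : Chk g a y s B G.code := by
  obtain ⟨u, hu, h1⟩ := Adq.of_Bd hB (fun i => if i = 0 then a else 0) (by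
    intro i _
    beta_reduce
    split
    · exact has
    · exact Nat.zero_le _)
  have h2 : Nat.beta u 0 = a := by rw [h1 0 (Nat.zero_le _)]; simp
  refine ⟨R, hR, W, hW, ?_, u, hu, h2, ?_, ?_⟩
  · intro c' hc' u' hu'
    rw [hE c' hc' u' hu', T_iff]
    apply Loc.congr
    intro c'' u'' h3 h4
    refine (hE c'' (by omega) u'' ?_).symm
    rcases h4 with h4 | h4
    · rw [h4]; exact hu'
    · exact h4
  · intro i hi
    by_cases h3 : i = 0
    · exact Or.inl h3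
    · refine Or.inr ?_
      rw [h1 i hi, if_neg h3]
  · rw [hE G.code le_rfl u hu, T_ev G u ?_ (Adq.of_Bd hB)]
    · exact (hG (Nat.beta u) a s h2 h2.le hK).2 hP
    · intro i hi
      rw [h1 i hi]
      split
      · exact has
      · exact Nat.zero_le _

end

section

variable {m : ℕ} {θ : Fin m → Fml false 1} (hθ : ∀ j, IsDelta0 (θ j)) {e : Fin m → ℕ}
  (he : Function.Injective e)

/-- the values of the formulas `θ` at the code of a tuple -/
def gg (θ : Fin m → Fml false 1) (e : Fin m → ℕ) (x : Fin m → ℕ) (j : Fin m) : Prop :=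
  Sat (θ j) ![Am e x]

include hθ he

theorem DP.gg {α : Type} [Cx α] {X : Fin m → α → ℕ} (hX : ∀ j, DF (X j)) (i : Fin m) :
    DP (fun a => gg θ e (fun j => X j a) i) :=
  DP.of_D0_one (D0.of_delta0 (hθ i)) (DF.am he hX)

theorem DP.ggW (i j : Fin m) : DP (fun p : ℕ × ℕ × ℕ =>
    LIO.gg θ e (Function.update (YW m p.1 p.2.1) j p.2.2) i) := by
  have key : ∀ k, DF (fun p : ℕ × ℕ × ℕ => Function.update (YW m p.1 p.2.1) j p.2.2 k) := ?_
  · have h := DP.gg hθ he (α := ℕ × ℕ × ℕ)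
      (X := fun k p => Function.update (YW m p.1 p.2.1) j p.2.2 k) key i
    exact h
  intro k
  by_cases hk : k = j
  · subst hk
    simp only [Function.update_self]
    repeat (first | exact DF.id | apply DF.fst' | apply DF.snd')
  · simp only [Function.update_of_ne hk]
    unfold YW ix
    refine DF.beta ?_ (DF.add (DF.mul ?_ (DF.const _)) (DF.const _))
    all_goals
      repeat (first | exact DF.id | apply DF.fst' | apply DF.snd')

theorem DP.bW (i : Fin m) : DP (fun p : ℕ × ℕ × ℕ => BW m p.1 p.2.1 i) := by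
  unfold BW ix
  refine DP.eq (DF.beta ?_ (DF.add (DF.mul ?_ (DF.const _)) (DF.const _))) (DF.const 1)
  all_goals
    repeat (first | exact DF.id | apply DF.fst' | apply DF.snd')

theorem DP.vT : DP (fun p : ℕ × ℕ × ℕ => VT (LIO.gg θ e) p.1 p.2.1 p.2.2) := by
  unfold VT
  refine DP.ex_fin fun j => DP.and (DP.eq (DF.beta ?_ ?_) (DF.const _))
    (DP.and (DP.all_fin fun i => DP.imp (DP.const _) (DP.iff (DP.ggW hθ he i j)
      (DP.bW hθ he i))) (DP.ggW hθ he j j).not)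
  · repeat (first | exact DF.id | apply DF.fst' | apply DF.snd')
  · unfold ix
    refine (DF.add (DF.mul ?_ (DF.const _)) (DF.const _))
    repeat (first | exact DF.id | apply DF.fst' | apply DF.snd')

theorem DP.vF : DP (fun p : ℕ × ℕ × ℕ => VF (LIO.gg θ e) p.1 p.2.1 p.2.2) := by
  unfold VF
  refine DP.ex_fin fun j => DP.and (DP.eq (DF.beta ?_ ?_) (DF.const _))
    (DP.and (DP.all_fin fun i => DP.imp (DP.const _) (DP.iff (DP.ggW hθ he i j)
      (DP.bW hθ he i))) (DP.ggW hθ he j j))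
  · repeat (first | exact DF.id | apply DF.fst' | apply DF.snd')
  · unfold ix
    refine (DF.add (DF.mul ?_ (DF.const _)) (DF.const _))
    repeat (first | exact DF.id | apply DF.fst' | apply DF.snd')

theorem DP.maj : DP (fun p : ℕ × ℕ × ℕ × ℕ => Maj (LIO.gg θ e) p.1 p.2.1 p.2.2.1 p.2.2.2) := by
  have hf : DF (fun q : ((ℕ × ℕ × ℕ × ℕ) × ℕ) × ℕ => (q.1.1.2.1, q.2, q.1.1.2.2.2)) := by
    refine (DF.prod ?_ (DF.prod ?_ ?_))
    all_goals repeat (first | exact DF.id | apply DF.fst' | apply DF.snd')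
  have hT : DP (fun q : ((ℕ × ℕ × ℕ × ℕ) × ℕ) × ℕ =>
      VT (LIO.gg θ e) q.1.1.2.1 q.2 q.1.1.2.2.2) := (DP.vT hθ he).comp hf
  have hF : DP (fun q : ((ℕ × ℕ × ℕ × ℕ) × ℕ) × ℕ =>
      VF (LIO.gg θ e) q.1.1.2.1 q.2 q.1.1.2.2.2) := (DP.vF hθ he).comp hf
  unfold Maj
  refine DP.bexle ?_ (DP.and (DP.eq ?_ ?_) (DP.and (DP.ball ?_ (DP.or (DP.and hT (DP.eq ?_ ?_))
    (DP.or (DP.and hF (DP.eq ?_ ?_)) (DP.and hT.not (DP.and hF.not (DP.eq ?_ ?_))))))
    (DP.lt ?_ ?_)))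
  all_goals
    repeat (first | exact DF.id | apply DF.beta | apply DF.add | exact DF.const _ |
      apply DF.fst' | apply DF.snd')

theorem DP.e2 : DP (fun p : ℕ × ℕ × ℕ × ℕ × ℕ × ℕ × ℕ =>
    E2 (LIO.gg θ e) p.1 p.2.1 p.2.2.1 p.2.2.2.1 p.2.2.2.2.1 p.2.2.2.2.2.1 p.2.2.2.2.2.2) := by
  unfold E2
  refine (DP.maj hθ he).comp (DF.prod ?_ (DF.prod ?_ (DF.prod ?_ ?_)))
  all_goals
    repeat (first | exact DF.id | apply DF.npair | apply DF.fst' | apply DF.snd')

theorem DP.chk : DP (fun p : ℕ × ℕ × ℕ × ℕ × ℕ =>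
    Chk (LIO.gg θ e) p.1 p.2.1 p.2.2.1 p.2.2.2.1 p.2.2.2.2) := by
  unfold Chk
  refine DP.bexle ?_ (DP.bexle ?_ (DP.and (DP.balle ?_ (DP.balle ?_ (DP.iff
    ((DP.e2 hθ he).comp (DF.prod ?_ (DF.prod ?_ (DF.prod ?_ (DF.prod ?_ (DF.prod ?_
      (DF.prod ?_ ?_)))))))
    (DP.loc ((DP.e2 hθ he).comp (DF.prod ?_ (DF.prod ?_ (DF.prod ?_ (DF.prod ?_ (DF.prod ?_
      (DF.prod ?_ ?_))))))) ?_ ?_ ?_ ?_))))
    (DP.bexle ?_ (DP.and (DP.eq ?_ ?_) (DP.and (DP.balle ?_ (DP.or (DP.eq ?_ ?_) (DP.eq ?_ ?_)))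
      ((DP.e2 hθ he).comp (DF.prod ?_ (DF.prod ?_ (DF.prod ?_ (DF.prod ?_ (DF.prod ?_
      (DF.prod ?_ ?_)))))))))))
  )
  all_goals
    repeat (first | exact DF.id | apply DF.beta | exact DF.const _ | apply DF.fst' | apply DF.snd')

theorem DP.g2 : DP (fun p : ℕ × ℕ × ℕ => G2 (LIO.gg θ e) p.1 p.2.1 p.2.2) := by
  unfold G2
  refine DP.bexle ?_ (DP.bexle ?_ (DP.bexle ?_ (DP.and (DP.eq ?_ ?_) (DP.and (DP.ball ?_
    (DP.eq ?_ ?_)) (DP.and (DP.eq ?_ ?_) (DP.and (DP.eq ?_ ?_)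
      ((DP.chk hθ he).comp (DF.prod ?_ (DF.prod ?_ (DF.prod ?_ (DF.prod ?_ ?_)))))))))))
  all_goals
    repeat (first | exact DF.id | apply DF.beta | apply DF.add | apply DF.mul | exact DF.const _ |
      apply DF.fst' | apply DF.snd')

end

end Pool.Agent.W894.LIO
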