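import Pool.Agent.W894.LIO.G2

/-!
One of the two candidates is universal.
-/

set_option autoImplicit false
set_option maxHeartbeats 4000000

namespace Pool.Agent.W894.LIO

open Pool.Agent.Helper626

theorem pair_lt_pow {x y q : ℕ} (hx : x ≤ 2 ^ q) (hy : y ≤ 2 ^ q) :
    Nat.pair x y < 2 ^ (2 * q + 2) := by
  refine (Nat.pair_lt_max_add_one_sq x y).trans_le ?_
  have h1 : max x y + 1 ≤ 2 ^ (q + 1) := by
    have h2 : max x y ≤ 2 ^ q := max_le hx hy
    have h3 : 1 ≤ 2 ^ q := Nat.one_le_two_pow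
    rw [pow_succ]
    omega
  calc (max x y + 1) ^ 2 ≤ (2 ^ (q + 1)) ^ 2 := Nat.pow_le_pow_left h1 2
    _ = 2 ^ (2 * q + 2) := by rw [← pow_mul]; congr 1; ring

theorem pair_mono {a b c d : ℕ} (h : a ≤ b) (h' : c ≤ d) : Nat.pair a c ≤ Nat.pair b d := by
  have h1 : Nat.pair a c ≤ Nat.pair b c := by
    rcases Nat.lt_or_eq_of_le h with h | h
    · exact (Nat.pair_lt_pair_left _ h).le
    · rw [h]
  have h2 : Nat.pair b c ≤ Nat.pair b d := by
    rcases Nat.lt_or_eq_of_le h' with h | h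
    · exact (Nat.pair_lt_pair_right _ h).le
    · rw [h]
  exact h1.trans h2

/-- the logarithm of the size of the domain -/
def ll (r : ℕ) : ℕ := 8 * (r * r) + 14

/-- the number of predictors -/
def RR (m r : ℕ) : ℕ := 4 ^ (m + 1) * (ll r + 1)

/-- the length of the sequence of predictors -/
def NW (m r : ℕ) : ℕ := RR m r * (2 * m + 1) + (2 * m + 1)

/-- a lower bound for `a` in terms of `r` -/
def FF (m r : ℕ) : ℕ :=
  Be (r * r) (r * r + 1) + Be (NW m r) (ll r + (m + 1)) + Be (RR m r) (2 * RR m r + 1) +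
    RR m r + r * r + r

theorem DF.ff (m : ℕ) : DF (fun r : ℕ => FF m r) := by
  have h1 : DF (fun r : ℕ => r * r) := DF.id.mul DF.id
  have h2 : DF (fun r : ℕ => ll r) := ((DF.const 8).mul h1).add (DF.const 14)
  have h3 : DF (fun r : ℕ => RR m r) := (DF.const (4 ^ (m + 1))).mul (h2.add (DF.const 1))
  have h4 : DF (fun r : ℕ => NW m r) := (h3.mul (DF.const (2 * m + 1))).add (DF.const (2 * m + 1))
  unfold FF
  exact (((((h1.beConst (h1.add (DF.const 1))).add (h4.beConst (h2.add (DF.const (m + 1))))).add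
    (h3.beConst (((DF.const 2).mul h3).add (DF.const 1)))).add h3).add h1).add DF.id

theorem exists_table {m : ℕ} (g : (Fin m → ℕ) → Fin m → Prop)
    (hav : ∀ x, ∃ j, ¬ (ff (x j) ↔ g x j)) {r a c s B : ℕ} (hs : s ≤ 2 ^ (r * r))
    (hB : B ≤ 2 ^ (r * r)) (hc : c ≤ 2 ^ (r * r)) (ha : FF m r ≤ a) {y : ℕ} (hy : 2 ^ a ≤ y) :
    ∃ R, R ≤ y ∧ ∃ W, W ≤ y ∧ ∀ c', c' ≤ c → ∀ u', u' ≤ B →
      (E2 g y W R s B c' u' ↔ T s B c' u') := by
  classical
  have hm : 0 < m := by
    obtain ⟨j, _⟩ := hav (fun _ => 0)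
    exact j.pos
  set q := r * r with hq
  set Z := Nat.pair s (Nat.pair B (Nat.pair c B)) with hZ
  have hZ1 : Z + 1 ≤ 2 ^ ll r := by
    have h1 := pair_lt_pow hc hB
    have h2 : B ≤ 2 ^ (2 * q + 2) := hB.trans (Nat.pow_le_pow_right (by norm_num) (by omega))
    have h3 := pair_lt_pow h2 h1.le
    have h4 : s ≤ 2 ^ (2 * (2 * q + 2) + 2) :=
      hs.trans (Nat.pow_le_pow_right (by norm_num) (by omega))
    have h5 := pair_lt_pow h4 h3.le
    have h6 : 2 * (2 * (2 * q + 2) + 2) + 2 = ll r := by unfold ll; omega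
    rw [h6] at h5
    exact h5
  obtain ⟨J, Y, hY, hf⟩ := boost ff g hav Z (ll r) hZ1
  have hRR : 4 ^ (m + 1) * (ll r + 1) = RR m r := rfl
  rw [hRR] at hf
  have hle : ∀ x, x ≤ a → x ≤ 2 ^ a := fun x hx => hx.trans (Nat.lt_two_pow_self).le
  obtain ⟨W, _, hW1, hW2⟩ := exists_beta (NW m r) (Z + m + 1)
    (fun i => if i % (2 * m + 1) = 0 then (J (i / (2 * m + 1)) : ℕ) else
      if h : i % (2 * m + 1) - 1 < m then Y (i / (2 * m + 1)) ⟨i % (2 * m + 1) - 1, h⟩ else
      if h' : i % (2 * m + 1) - 1 - m < m then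
        (if ff (Y (i / (2 * m + 1)) ⟨i % (2 * m + 1) - 1 - m, h'⟩) then 1 else 0) else 0) (by
      intro i _
      beta_reduce
      split
      · have := (J (i / (2 * m + 1))).isLt
        omega
      · split
        · have := hY (i / (2 * m + 1)) ⟨i % (2 * m + 1) - 1, by assumption⟩
          omega
        · split
          · split <;> omega
          · omega)
  have hdiv : ∀ r' k, k < 2 * m + 1 → (ix m r' k) / (2 * m + 1) = r' ∧
      (ix m r' k) % (2 * m + 1) = k := by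
    intro r' k hk
    unfold ix
    constructor
    · rw [mul_comm, Nat.mul_add_div (by omega), Nat.div_eq_of_lt hk, add_zero]
    · rw [mul_comm, Nat.mul_add_mod, Nat.mod_eq_of_lt hk]
  have hix : ∀ r' k, r' < RR m r → k < 2 * m + 1 → ix m r' k ≤ NW m r := by
    intro r' k hr' hk
    unfold ix NW
    have : r' * (2 * m + 1) ≤ RR m r * (2 * m + 1) := Nat.mul_le_mul_right _ hr'.le
    omega
  refine ⟨RR m r, (hle _ (by unfold FF at ha; omega)).trans hy, W, le_trans ?_ hy, ?_⟩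
  · refine hW1.trans ((Bd_le_two_pow (l := ll r + (m + 1)) ?_).trans
      (Nat.pow_le_pow_right (by norm_num) (by unfold FF at ha; omega)))
    rw [pow_add]
    have h1 : m + 1 + 1 ≤ 2 ^ (m + 1) := Nat.lt_two_pow_self
    have h2 : 1 ≤ 2 ^ ll r := Nat.one_le_two_pow
    nlinarith
  · intro c' hc' u' hu'
    have hx : Nat.pair s (Nat.pair B (Nat.pair c' u')) ≤ Z :=
      pair_mono le_rfl (pair_mono le_rfl (pair_mono hc' hu'))
    have h1 := hf _ hx
    rw [ff_pair] at h1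
    unfold E2
    rw [Maj_iff (J := J) (Y := Y) (b := fun r i => ff (Y r i)), ← h1]
    · exact ⟨fun h => h.2, fun h => ⟨hu', h⟩⟩
    · intro r' hr'
      rw [hW2 _ (hix r' 0 hr' (by omega))]
      beta_reduce
      obtain ⟨d1, d2⟩ := hdiv r' 0 (by omega)
      rw [d2, if_pos rfl, d1]
    · intro r' hr'
      funext i
      have hi := i.isLt
      unfold YW
      rw [hW2 _ (hix r' _ hr' (by omega))]
      beta_reduce
      obtain ⟨d1, d2⟩ := hdiv r' (1 + i) (by omega)
      have d3 : (ix m r' (1 + i)) % (2 * m + 1) - 1 < m := by omega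
      rw [if_neg (by omega), dif_pos d3]
      have d4 : (⟨(ix m r' (1 + i)) % (2 * m + 1) - 1, d3⟩ : Fin m) = i := by
        apply Fin.ext
        change (ix m r' (1 + i)) % (2 * m + 1) - 1 = i
        omega
      rw [d4, d1]
    · intro r' hr' i
      have hi := i.isLt
      unfold BW
      rw [hW2 _ (hix r' _ hr' (by omega))]
      beta_reduce
      obtain ⟨d1, d2⟩ := hdiv r' (1 + m + i) (by omega)
      have d3 : ¬ (ix m r' (1 + m + i)) % (2 * m + 1) - 1 < m := by omega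
      have d5 : (ix m r' (1 + m + i)) % (2 * m + 1) - 1 - m < m := by omega
      rw [if_neg (by omega), dif_neg d3, dif_pos d5]
      have d4 : (⟨(ix m r' (1 + m + i)) % (2 * m + 1) - 1 - m, d5⟩ : Fin m) = i := by
        apply Fin.ext
        change (ix m r' (1 + m + i)) % (2 * m + 1) - 1 - m = i
        omega
      rw [d4, d1]
      by_cases h : ff (Y r' i) <;> simp [h]
    · refine le_trans ((Bd_le_two_pow (l := 2 * RR m r + 1) ?_).trans
        (Nat.pow_le_pow_right (by norm_num) (by unfold FF at ha; omega))) hy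
      exact Nat.lt_two_pow_self.le

theorem G2_iff {m : ℕ} (g : (Fin m → ℕ) → Fin m → Prop)
    (hav : ∀ x, ∃ j, ¬ (ff (x j) ↔ g x j)) {a r z K : ℕ} {G : RF} {P : Prop}
    (h0 : Nat.beta a 0 = r) (h1 : Nat.beta a (z + 1) = G.code) (hr : 1 ≤ r)
    (has : a ≤ 2 ^ r) (hK : (a + 2) ^ K ≤ 2 ^ r)
    (hG : ∀ (v : ℕ → ℕ) (X s : ℕ), v 0 = a → v 0 ≤ X → (X + 2) ^ K ≤ s → (G.ev s v ↔ P))
    (hB : Bd G.code (2 ^ r) ≤ 2 ^ (r * r)) (hc : G.code ≤ 2 ^ (r * r)) (ha : FF m r ≤ a)
    {y : ℕ} (hy : 2 ^ a ≤ y) :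
    G2 g a y z ↔ P := by
  have hrr : r ≤ r * r := by nlinarith
  unfold G2
  rw [h0, h1]
  constructor
  · rintro ⟨s, _, B, _, τ, _, h2, h3, h4, h5, h6⟩
    have h7 := pow_seq h2 h3
    rw [h7 r hrr] at h4
    rw [h7 _ le_rfl] at h5
    subst h4 h5
    exact Chk_sound has hK hG hB h6
  · intro hP
    have hle : ∀ x, x ≤ a → 2 ^ x ≤ y := fun x hx =>
      (Nat.pow_le_pow_right (by norm_num) hx).trans hy
    obtain ⟨τ, _, h2, h3⟩ := exists_beta (r * r) (2 ^ (r * r)) (fun i => 2 ^ i)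
      (fun i hi => Nat.pow_le_pow_right (by norm_num) hi)
    obtain ⟨R, hR, W, hW, hE⟩ := exists_table g hav (r := r) (a := a) (c := G.code) (s := 2 ^ r)
      (B := 2 ^ (r * r)) (Nat.pow_le_pow_right (by norm_num) hrr) le_rfl hc ha hy
    refine ⟨2 ^ r, hle r (by unfold FF at ha; omega), 2 ^ (r * r),
      hle _ (by unfold FF at ha; omega), τ, ?_, ?_, ?_, ?_, ?_, ?_⟩
    · refine h2.trans ((Bd_le_two_pow (l := r * r + 1) ?_).trans (hle _ (by
        unfold FF at ha; omega)))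
      rw [pow_succ]
      have : 1 ≤ 2 ^ (r * r) := Nat.one_le_two_pow
      omega
    · rw [h3 0 (Nat.zero_le _)]
      rfl
    · intro i hi
      rw [h3 i hi.le, h3 (i + 1) hi]
      beta_reduce
      rw [pow_succ, mul_comm]
    · rw [h3 r hrr]
    · rw [h3 _ le_rfl]
    · exact Chk_complete has hK hG hB hR hW hE hP

theorem eventually_pow_le (k : ℕ) : ∀ᶠ r : ℕ in Filter.atTop, (r + 2) ^ k ≤ 2 ^ r := by
  have h1 := tendsto_pow_const_div_const_pow_of_one_lt k (by norm_num : (1 : ℝ) < 2)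
  have h2 : ∀ᶠ n : ℕ in Filter.atTop, (n : ℝ) ^ k / 2 ^ n < 1 / 4 :=
    h1.eventually (gt_mem_nhds (by norm_num))
  have h3 := (Filter.tendsto_add_atTop_nat 2).eventually h2
  filter_upwards [h3] with r hr
  rw [div_lt_iff₀ (by positivity)] at hr
  have h4 : ((r + 2 : ℕ) : ℝ) ^ k ≤ 2 ^ r := by
    refine hr.le.trans (le_of_eq ?_)
    rw [pow_add]
    ring
  exact_mod_cast h4

/-- polynomially bounded functions are eventually dominated by `2 ^ r` -/
theorem DF.eventually {F : ℕ → ℕ} (hF : DF F) : ∀ᶠ r : ℕ in Filter.atTop, F r ≤ 2 ^ r := by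
  obtain ⟨k, hk⟩ := hF.bdd
  filter_upwards [eventually_pow_le k] with r hr
  exact (hk r).trans hr

/-- bounded formulas with one free variable -/
abbrev F1 : Type := {θ : Fml false 1 // IsDelta0 θ}

theorem exists_rf (θ : F1) : ∃ (K : ℕ) (G : RF), ∀ (v : ℕ → ℕ) (X s : ℕ), v 0 ≤ X →
    (X + 2) ^ K ≤ s → (G.ev s v ↔ Sat θ.1 ![v 0]) := by
  obtain ⟨K, G, h⟩ := delta_rf (D0.of_delta0 θ.2)
  refine ⟨K, G, fun v X s h1 h2 => ?_⟩
  have h3 := h v X s (fun i => by
    have : i = 0 := Subsingleton.elim _ _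
    subst this
    exact h1) h2
  rw [h3]
  have : (fun i : Fin 1 => v i) = ![v 0] := by
    funext i
    have : i = 0 := Subsingleton.elim _ _
    subst this
    rfl
  rw [this]

/-- in the second case the second candidate is universal -/
theorem case_two (code : F1 → ℕ) (hcode : Function.Injective code) {m : ℕ}
    (g : (Fin m → ℕ) → Fin m → Prop) (hav : ∀ x, ∃ j, ¬ (ff (x j) ↔ g x j)) (Θ : Finset F1) :
    ∃ a : ℕ, ∀ θ ∈ Θ, ∀ y, 2 ^ a ≤ y → (G2 g a y (code θ) ↔ Sat θ.1 ![a]) := by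
  classical
  choose K G hG using exists_rf
  set κ : ℕ → ℕ := fun i => ∑ θ ∈ Θ, if code θ = i then (G θ).code else 0 with hκ
  have hκ1 : ∀ θ ∈ Θ, κ (code θ) = (G θ).code := by
    intro θ hθ
    rw [hκ]
    beta_reduce
    rw [Finset.sum_eq_single θ]
    · simp
    · intro b _ hb
      rw [if_neg (fun h => hb (hcode h))]
    · intro h
      exact absurd hθ h
  set M : ℕ := ∑ θ ∈ Θ, (G θ).code with hM
  set N : ℕ := ∑ θ ∈ Θ, code θ + 1 with hN
  have hex : ∀ r, ∃ a, M + FF m r ≤ a ∧ a ≤ Bd N (M + FF m r) ∧ Nat.beta a 0 = r ∧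
      ∀ θ ∈ Θ, Nat.beta a (code θ + 1) = (G θ).code := by
    intro r
    obtain ⟨a, h1, h2, h3⟩ := exists_beta N (M + FF m r)
      (fun i => if i = 0 then r else κ (i - 1)) (by
        intro i _
        beta_reduce
        split
        · unfold FF; omega
        · have : κ (i - 1) ≤ M := by
            refine Finset.sum_le_sum fun θ _ => ?_
            split
            · exact le_rfl
            · exact Nat.zero_le _
          omega)
    refine ⟨a, h1, h2, ?_, ?_⟩
    · rw [h3 0 (Nat.zero_le _), if_pos rfl]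
    · intro θ hθ
      have h4 : code θ ≤ ∑ θ ∈ Θ, code θ :=
        Finset.single_le_sum (f := code) (fun _ _ => Nat.zero_le _) hθ
      rw [h3 (code θ + 1) (by omega), if_neg (by omega), Nat.add_sub_cancel]
      exact hκ1 θ hθ
  choose A hA1 hA2 hA3 hA4 using hex
  have hbd : DF (fun r : ℕ => Bd N (M + FF m r)) := DF.bdConst N ((DF.const M).add (DF.ff m))
  have e1 : ∀ᶠ r : ℕ in Filter.atTop, Bd N (M + FF m r) ≤ 2 ^ r := hbd.eventually
  have e2 : ∀ᶠ r : ℕ in Filter.atTop, ∀ θ ∈ Θ, (Bd N (M + FF m r) + 2) ^ K θ ≤ 2 ^ r := by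
    rw [Filter.eventually_all_finset]
    intro θ _
    exact (DF.npow (hbd.add (DF.const 2)) (K θ)).eventually
  have e3 : ∀ᶠ r : ℕ in Filter.atTop, ∀ θ ∈ Θ, Be (G θ).code (r + 1) ≤ r * r := by
    rw [Filter.eventually_all_finset]
    intro θ _
    filter_upwards [Filter.eventually_ge_atTop (Be (G θ).code 1 + 2 * ((G θ).code + 1) + 1)]
      with r hr
    have h1 : Be (G θ).code (r + 1) = Be (G θ).code 1 + 2 * ((G θ).code + 1) * r := by
      unfold Be
      ring
    rw [h1]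
    nlinarith
  obtain ⟨r, h1, h2, h3, h4⟩ := (e1.and (e2.and (e3.and (Filter.eventually_ge_atTop
    (M + 1))))).exists
  refine ⟨A r, fun θ hθ y hy => ?_⟩
  have hc : (G θ).code ≤ M :=
    Finset.single_le_sum (f := fun θ => (G θ).code) (fun _ _ => Nat.zero_le _) hθ
  have hr : 1 ≤ r := by omega
  refine G2_iff g hav (K := K θ) (G := G θ) (hA3 r) (hA4 r θ hθ) hr ((hA2 r).trans h1)
    ?_ ?_ ?_ ?_ ?_ hy
  · exact (Nat.pow_le_pow_left (Nat.add_le_add_right (hA2 r) 2) _).trans (h2 θ hθ)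
  · intro v X s hv hX hs
    have := hG θ v X s hX hs
    rw [hv] at this
    exact this
  · refine (Bd_le_two_pow (l := r + 1) ?_).trans (Nat.pow_le_pow_right (by norm_num) (h3 θ hθ))
    rw [pow_succ]
    have : 1 ≤ 2 ^ r := Nat.one_le_two_pow
    omega
  · have h5 : r ≤ r * r := by nlinarith
    have h6 : r * r < 2 ^ (r * r) := Nat.lt_two_pow_self
    omega
  · have := hA1 r
    omega

/-- the main theorem in the standard model -/
theorem main (code : F1 → ℕ) (hcode : Function.Injective code) :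
    ∃ Γ : Fml false 3, IsDelta0 Γ ∧ ∀ Θ : Finset F1, ∃ a : ℕ, ∀ θ ∈ Θ, ∀ y, 2 ^ a ≤ y →
      (Sat Γ ![a, y, code θ] ↔ Sat θ.1 ![a]) := by
  classical
  by_cases H : ∀ Θ : Finset F1, ∃ a : ℕ, ∀ θ ∈ Θ,
      ((Gd (Nat.beta a (code θ)) a ∧ ff (Nat.beta a (code θ))) ↔ Sat θ.1 ![a])
  · obtain ⟨Γ, h1, h2⟩ := DP.g1.syn3
    refine ⟨Γ, h1, fun Θ => ?_⟩
    obtain ⟨a, ha⟩ := H Θ
    refine ⟨a, fun θ hθ y hy => ?_⟩
    rw [h2, ← ha θ hθ]
    exact G1_iff hy (code θ)
  · push Not at H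
    obtain ⟨Θ, hΘ⟩ := H
    set m := Fintype.card Θ with hm
    let en : Fin m ≃ Θ := (Fintype.equivFin Θ).symm
    have he : Function.Injective (fun j : Fin m => code (en j).1) :=
      hcode.comp (Subtype.val_injective.comp en.injective)
    set g := gg (fun j : Fin m => (en j).1.1) (fun j : Fin m => code (en j).1) with hg
    have hav : ∀ x : Fin m → ℕ, ∃ j, ¬ (ff (x j) ↔ g x j) := by
      intro x
      obtain ⟨θ, hθ, h⟩ := hΘ (Am (fun j : Fin m => code (en j).1) x)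
      refine ⟨en.symm ⟨θ, hθ⟩, ?_⟩
      have h1 := Am_good he x (en.symm ⟨θ, hθ⟩)
      simp only [Equiv.apply_symm_apply] at h1
      intro h2
      have h3 : g x (en.symm ⟨θ, hθ⟩) ↔ Sat θ.1 ![Am (fun j : Fin m => code (en j).1) x] := by
        rw [hg]
        unfold gg
        simp only [Equiv.apply_symm_apply]
      rw [h3] at h2
      have h4 : ((Gd (Nat.beta (Am (fun j : Fin m => code (en j).1) x) (code θ))
          (Am (fun j : Fin m => code (en j).1) x) ∧
          ff (Nat.beta (Am (fun j : Fin m => code (en j).1) x) (code θ))) ↔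
          Sat θ.1 ![Am (fun j : Fin m => code (en j).1) x]) := by
        rw [h1.1, ← h2]
        exact ⟨fun h => h.2, fun h => ⟨h1.2, h⟩⟩
      rcases h with ⟨h5, h6⟩ | ⟨h5, h6⟩
      · exact h6 (h4.1 h5)
      · exact h5 (h4.2 h6).1 (h4.2 h6).2
    obtain ⟨Γ, h1, h2⟩ := (DP.g2 (fun j => (en j).1.2) he).syn3
    refine ⟨Γ, h1, fun Θ' => ?_⟩
    obtain ⟨a, ha⟩ := case_two code hcode g hav Θ'
    refine ⟨a, fun θ hθ y hy => ?_⟩
    rw [h2]
    exact ha θ hθ y hy

end Pool.Agent.W894.LIO
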