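import Pool.Agent.W894.LIO.DP
import Pool.Agent.W894.LIO.Beta

/-!
Internal formulas and their evaluation over finite initial segments.
-/

set_option autoImplicit false

namespace Pool.Agent.W894.LIO

open Pool.Agent.Helper626

/-- relational formulas of arithmetic with numbered variables -/
inductive RF
  | add (i j k : ℕ)
  | mul (i j k : ℕ)
  | lt (i j : ℕ)
  | nand (A B : RF)
  | ex (j : ℕ) (A : RF)

/-- the code of a relational formula -/
def RF.code : RF → ℕ
  | .add i j k => Nat.pair 0 (Nat.pair i (Nat.pair j k))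
  | .mul i j k => Nat.pair 1 (Nat.pair i (Nat.pair j k))
  | .lt i j => Nat.pair 2 (Nat.pair i j)
  | .nand A B => Nat.pair 3 (Nat.pair A.code B.code)
  | .ex j A => Nat.pair 4 (Nat.pair j A.code)

/-- truth in the initial segment `[0, s]` -/
def RF.ev (s : ℕ) : RF → (ℕ → ℕ) → Prop
  | .add i j k, v => v i + v j = v k
  | .mul i j k, v => v i * v j = v k
  | .lt i j, v => v i < v j
  | .nand A B, v => ¬ (A.ev s v ∧ B.ev s v)
  | .ex j A, v => ∃ x, x ≤ s ∧ A.ev s (Function.update v j x)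

theorem le_pair3 {a b c : ℕ} : b ≤ Nat.pair c (Nat.pair b a) :=
  (Nat.left_le_pair _ _).trans (Nat.right_le_pair _ _)

theorem le_pair3' {a b c : ℕ} : a ≤ Nat.pair c (Nat.pair b a) :=
  (Nat.right_le_pair _ _).trans (Nat.right_le_pair _ _)

theorem lt_pair_succ {k r : ℕ} : r < Nat.pair (k + 1) r :=
  lt_of_le_of_lt (Nat.right_le_pair 0 r) (Nat.pair_lt_pair_left r (Nat.succ_pos k))

theorem lt_pair3 {a b k : ℕ} : b < Nat.pair (k + 1) (Nat.pair b a) :=
  lt_of_le_of_lt (Nat.left_le_pair _ _) lt_pair_succ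

theorem lt_pair3' {a b k : ℕ} : a < Nat.pair (k + 1) (Nat.pair b a) :=
  lt_of_le_of_lt (Nat.right_le_pair _ _) lt_pair_succ

/-- one step of the truth definition -/
def Loc (E : ℕ → ℕ → Prop) (s B c u : ℕ) : Prop :=
  (∃ i, i ≤ c ∧ ∃ j, j ≤ c ∧ ∃ k, k ≤ c ∧ c = Nat.pair 0 (Nat.pair i (Nat.pair j k)) ∧
    Nat.beta u i + Nat.beta u j = Nat.beta u k) ∨
  (∃ i, i ≤ c ∧ ∃ j, j ≤ c ∧ ∃ k, k ≤ c ∧ c = Nat.pair 1 (Nat.pair i (Nat.pair j k)) ∧
    Nat.beta u i * Nat.beta u j = Nat.beta u k) ∨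
  (∃ i, i ≤ c ∧ ∃ j, j ≤ c ∧ c = Nat.pair 2 (Nat.pair i j) ∧ Nat.beta u i < Nat.beta u j) ∨
  (∃ i, i ≤ c ∧ ∃ j, j ≤ c ∧ c = Nat.pair 3 (Nat.pair i j) ∧ ¬ (E i u ∧ E j u)) ∨
  (∃ j, j ≤ c ∧ ∃ i, i ≤ c ∧ c = Nat.pair 4 (Nat.pair j i) ∧ ∃ u', u' ≤ B ∧
    (∀ l, l ≤ c → (l = j ∨ Nat.beta u' l = Nat.beta u l)) ∧ Nat.beta u' j ≤ s ∧ E i u')

theorem Loc.congr {E E' : ℕ → ℕ → Prop} {s B c u : ℕ}
    (h : ∀ c' u', c' < c → (u' = u ∨ u' ≤ B) → (E c' u' ↔ E' c' u')) :
    Loc E s B c u ↔ Loc E' s B c u := by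
  unfold Loc
  refine or_congr Iff.rfl (or_congr Iff.rfl (or_congr Iff.rfl (or_congr ?_ ?_)))
  · refine exists_congr fun i => and_congr Iff.rfl (exists_congr fun j => and_congr Iff.rfl
      (and_congr_right fun hc => ?_))
    rw [h i u (by rw [hc]; exact lt_pair3) (Or.inl rfl),
      h j u (by rw [hc]; exact lt_pair3') (Or.inl rfl)]
  · refine exists_congr fun j => and_congr Iff.rfl (exists_congr fun i => and_congr Iff.rfl
      (and_congr_right fun hc => exists_congr fun u' => and_congr_right fun hu =>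
        and_congr Iff.rfl (and_congr Iff.rfl ?_)))
    exact h i u' (by rw [hc]; exact lt_pair3') (Or.inr hu)

/-- truth in `[0, s]` for codes of formulas, all codes of assignments being at most `B` -/
noncomputable def T (s B : ℕ) : ℕ → ℕ → Prop :=
  WellFounded.fix (C := fun _ => ℕ → Prop) Nat.lt_wfRel.wf
    (fun c ih u => Loc (fun c' u' => ∃ h : c' < c, ih c' h u') s B c u)

theorem T_iff (s B c u : ℕ) : T s B c u ↔ Loc (T s B) s B c u := by
  have h : T s B c u ↔ Loc (fun c' u' => ∃ _ : c' < c, T s B c' u') s B c u := by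
    conv_lhs => unfold T
    rw [WellFounded.fix_eq]
    rfl
  rw [h]
  apply Loc.congr
  intro c' u' hc _
  constructor
  · rintro ⟨_, h⟩
    exact h
  · intro h
    exact ⟨hc, h⟩

theorem T_unique {E : ℕ → ℕ → Prop} {s B c : ℕ}
    (h : ∀ c', c' ≤ c → ∀ u, u ≤ B → (E c' u ↔ Loc E s B c' u)) :
    ∀ c', c' ≤ c → ∀ u, u ≤ B → (E c' u ↔ T s B c' u) := by
  intro c'
  induction c' using Nat.strong_induction_on with
  | _ c' ih =>
    intro hc u hu
    rw [h c' hc u hu, T_iff]
    apply Loc.congr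
    intro c'' u' h1 h2
    refine ih c'' h1 (by omega) u' ?_
    rcases h2 with h2 | h2
    · rw [h2]; exact hu
    · exact h2

theorem RF.ev_congr {s : ℕ} : ∀ (A : RF) (v v' : ℕ → ℕ), (∀ i, i ≤ A.code → v i = v' i) →
    (A.ev s v ↔ A.ev s v') := by
  intro A
  induction A with
  | add i j k =>
    intro v v' h
    unfold RF.ev
    unfold RF.code at h
    rw [h i le_pair3, h j ((Nat.left_le_pair _ _).trans le_pair3'),
      h k ((Nat.right_le_pair _ _).trans le_pair3')]
  | mul i j k =>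
    intro v v' h
    unfold RF.ev
    unfold RF.code at h
    rw [h i le_pair3, h j ((Nat.left_le_pair _ _).trans le_pair3'),
      h k ((Nat.right_le_pair _ _).trans le_pair3')]
  | lt i j =>
    intro v v' h
    unfold RF.ev
    unfold RF.code at h
    rw [h i le_pair3, h j le_pair3']
  | nand A B ihA ihB =>
    intro v v' h
    unfold RF.ev
    unfold RF.code at h
    rw [ihA v v' (fun i hi => h i (hi.trans le_pair3)),
      ihB v v' (fun i hi => h i (hi.trans le_pair3'))]
  | ex j A ih =>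
    intro v v' h
    unfold RF.ev
    unfold RF.code at h
    refine exists_congr fun x => and_congr Iff.rfl (ih _ _ fun i hi => ?_)
    by_cases hij : i = j
    · subst hij
      simp
    · rw [Function.update_of_ne hij, Function.update_of_ne hij]
      exact h i (hi.trans le_pair3')

/-- `B` bounds the codes of the sequences of length `N + 1` in `[0, s]` -/
def Adq (s B N : ℕ) : Prop :=
  ∀ x : ℕ → ℕ, (∀ i, i ≤ N → x i ≤ s) → ∃ u, u ≤ B ∧ ∀ i, i ≤ N → Nat.beta u i = x i

theorem Adq.mono {s B N N' : ℕ} (h : Adq s B N) (hN : N' ≤ N) : Adq s B N' := by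
  intro x hx
  obtain ⟨u, hu, h1⟩ := h (fun i => if i ≤ N' then x i else 0) (by
    intro i _
    beta_reduce
    split
    · exact hx i ‹_›
    · exact Nat.zero_le _)
  refine ⟨u, hu, fun i hi => ?_⟩
  have := h1 i (by omega)
  rw [this, if_pos hi]

theorem Adq.of_Bd {s B N : ℕ} (h : Bd N s ≤ B) : Adq s B N := by
  intro x hx
  obtain ⟨u, _, h1, h2⟩ := exists_beta N s x hx
  exact ⟨u, h1.trans h, h2⟩

theorem T_ev {s B : ℕ} : ∀ (A : RF) (u : ℕ), (∀ i, i ≤ A.code → Nat.beta u i ≤ s) →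
    Adq s B A.code → (T s B A.code u ↔ A.ev s (Nat.beta u)) := by
  intro A
  induction A with
  | add i j k =>
    intro u hu hB
    rw [T_iff]
    unfold Loc RF.ev RF.code
    constructor
    · rintro (⟨i', _, j', _, k', _, h, h'⟩ | ⟨i', _, j', _, k', _, h, h'⟩ | ⟨i', _, j', _, h, h'⟩ |
        ⟨i', _, j', _, h, h'⟩ | ⟨j', _, i', _, h, h'⟩)
      · simp only [Nat.pair_eq_pair, true_and] at h
        obtain ⟨rfl, rfl, rfl⟩ := h
        exact h'
      all_goals simp at h
    · intro h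
      exact Or.inl ⟨i, le_pair3, j, (Nat.left_le_pair _ _).trans le_pair3', k,
        (Nat.right_le_pair _ _).trans le_pair3', rfl, h⟩
  | mul i j k =>
    intro u hu hB
    rw [T_iff]
    unfold Loc RF.ev RF.code
    constructor
    · rintro (⟨i', _, j', _, k', _, h, h'⟩ | ⟨i', _, j', _, k', _, h, h'⟩ | ⟨i', _, j', _, h, h'⟩ |
        ⟨i', _, j', _, h, h'⟩ | ⟨j', _, i', _, h, h'⟩)
      · simp at h
      · simp only [Nat.pair_eq_pair, true_and] at h
        obtain ⟨rfl, rfl, rfl⟩ := h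
        exact h'
      all_goals simp at h
    · intro h
      exact Or.inr (Or.inl ⟨i, le_pair3, j, (Nat.left_le_pair _ _).trans le_pair3', k,
        (Nat.right_le_pair _ _).trans le_pair3', rfl, h⟩)
  | lt i j =>
    intro u hu hB
    rw [T_iff]
    unfold Loc RF.ev RF.code
    constructor
    · rintro (⟨i', _, j', _, k', _, h, h'⟩ | ⟨i', _, j', _, k', _, h, h'⟩ | ⟨i', _, j', _, h, h'⟩ |
        ⟨i', _, j', _, h, h'⟩ | ⟨j', _, i', _, h, h'⟩)
      · simp at h
      · simp at h
      · simp only [Nat.pair_eq_pair, true_and] at h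
        obtain ⟨rfl, rfl⟩ := h
        exact h'
      all_goals simp at h
    · intro h
      exact Or.inr (Or.inr (Or.inl ⟨i, le_pair3, j, le_pair3', rfl, h⟩))
  | nand A B' ihA ihB =>
    intro u hu hB
    rw [T_iff]
    have hA : A.code ≤ (RF.nand A B').code := le_pair3
    have hB' : B'.code ≤ (RF.nand A B').code := le_pair3'
    have h1 := ihA u (fun i hi => hu i (hi.trans hA)) (hB.mono hA)
    have h2 := ihB u (fun i hi => hu i (hi.trans hB')) (hB.mono hB')
    unfold Loc RF.ev RF.code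
    rw [← h1, ← h2]
    constructor
    · rintro (⟨i', _, j', _, k', _, h, h'⟩ | ⟨i', _, j', _, k', _, h, h'⟩ | ⟨i', _, j', _, h, h'⟩ |
        ⟨i', _, j', _, h, h'⟩ | ⟨j', _, i', _, h, h'⟩)
      · simp at h
      · simp at h
      · simp at h
      · simp only [Nat.pair_eq_pair, true_and] at h
        obtain ⟨rfl, rfl⟩ := h
        exact h'
      · simp at h
    · intro h
      exact Or.inr (Or.inr (Or.inr (Or.inl ⟨A.code, le_pair3, B'.code, le_pair3', rfl, h⟩)))
  | ex j A ih =>
    intro u hu hB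
    rw [T_iff]
    have hA : A.code ≤ (RF.ex j A).code := le_pair3'
    have hj : j ≤ (RF.ex j A).code := le_pair3
    constructor
    · unfold Loc
      rintro (⟨i', _, j', _, k', _, h, h'⟩ | ⟨i', _, j', _, k', _, h, h'⟩ | ⟨i', _, j', _, h, h'⟩ |
        ⟨i', _, j', _, h, h'⟩ | ⟨j', _, i', _, h, h'⟩)
      · simp [RF.code] at h
      · simp [RF.code] at h
      · simp [RF.code] at h
      · simp [RF.code] at h
      · have h3 := h
        unfold RF.code at h3
        simp only [Nat.pair_eq_pair, true_and] at h3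
        obtain ⟨h3, h4⟩ := h3
        subst h3 h4
        obtain ⟨u', _, h5, h6, h7⟩ := h'
        have hle : ∀ i, i ≤ A.code → Nat.beta u' i ≤ s := by
          intro i hi
          rcases h5 i (hi.trans hA) with h8 | h8
          · rw [h8]; exact h6
          · rw [h8]; exact hu i (hi.trans hA)
        rw [ih u' hle (hB.mono hA)] at h7
        refine ⟨Nat.beta u' j, h6, ?_⟩
        rw [← RF.ev_congr A (Nat.beta u')]
        · exact h7
        · intro i hi
          by_cases hij : i = j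
          · subst hij
            simp
          · rw [Function.update_of_ne hij]
            exact (h5 i (hi.trans hA)).resolve_left hij
    · intro h
      unfold RF.ev at h
      obtain ⟨x, hx, hx'⟩ := h
      obtain ⟨u', hu', h1⟩ := hB (Function.update (Nat.beta u) j x) (by
        intro i hi
        by_cases hij : i = j
        · subst hij
          simpa using hx
        · rw [Function.update_of_ne hij]
          exact hu i hi)
      unfold Loc
      refine Or.inr (Or.inr (Or.inr (Or.inr ⟨j, hj, A.code, hA, rfl, u', hu', ?_, ?_, ?_⟩)))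
      · intro l hl
        by_cases hij : l = j
        · exact Or.inl hij
        · refine Or.inr ?_
          rw [h1 l hl, Function.update_of_ne hij]
      · rw [h1 j hj]
        simpa using hx
      · rw [ih u' ?_ (hB.mono hA), RF.ev_congr A _ (Function.update (Nat.beta u) j x)]
        · exact hx'
        · intro i hi
          exact h1 i (hi.trans hA)
        · intro i hi
          rw [h1 i (hi.trans hA)]
          by_cases hij : i = j
          · subst hij
            simpa using hx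
          · rw [Function.update_of_ne hij]
            exact hu i (hi.trans hA)

section

variable {α : Type} [Cx α]

theorem DP.loc {E : α → ℕ → ℕ → Prop} (hE : DP (fun p : α × ℕ × ℕ => E p.1 p.2.1 p.2.2))
    {s B c u : α → ℕ} (hs : DF s) (hB : DF B) (hc : DF c) (hu : DF u) :
    DP (fun a => Loc (E a) (s a) (B a) (c a) (u a)) := by
  have hfst : ∀ {β : Type} [Cx β], DF (fun p : β × ℕ => p.1) := DF.fst
  have c1 := hc.comp (DF.fst (α := α) (β := ℕ))
  have c2 := c1.comp (DF.fst (α := α × ℕ) (β := ℕ))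
  have c3 := c2.comp (DF.fst (α := (α × ℕ) × ℕ) (β := ℕ))
  have u2 := (hu.comp (DF.fst (α := α) (β := ℕ))).comp (DF.fst (α := α × ℕ) (β := ℕ))
  have u3 := u2.comp (DF.fst (α := (α × ℕ) × ℕ) (β := ℕ))
  unfold Loc
  refine DP.or ?_ (DP.or ?_ (DP.or ?_ (DP.or ?_ ?_)))
  · refine DP.bexle hc (DP.bexle c1 (DP.bexle c2 (DP.and (DP.eq c3 ?_) (DP.eq ?_ ?_))))
    · exact (DF.const 0).npair (DF.fst.fst'.snd'.npair (DF.fst.snd'.npair DF.snd))
    · exact (u3.beta DF.fst.fst'.snd').add (u3.beta DF.fst.snd')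
    · exact u3.beta DF.snd
  · refine DP.bexle hc (DP.bexle c1 (DP.bexle c2 (DP.and (DP.eq c3 ?_) (DP.eq ?_ ?_))))
    · exact (DF.const 1).npair (DF.fst.fst'.snd'.npair (DF.fst.snd'.npair DF.snd))
    · exact (u3.beta DF.fst.fst'.snd').mul (u3.beta DF.fst.snd')
    · exact u3.beta DF.snd
  · refine DP.bexle hc (DP.bexle c1 (DP.and (DP.eq c2 ?_) (DP.lt ?_ ?_)))
    · exact (DF.const 2).npair (DF.fst.snd'.npair DF.snd)
    · exact u2.beta DF.fst.snd'
    · exact u2.beta DF.snd
  · refine DP.bexle hc (DP.bexle c1 (DP.and (DP.eq c2 ?_) (DP.not (DP.and ?_ ?_))))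
    · exact (DF.const 3).npair (DF.fst.snd'.npair DF.snd)
    · exact hE.comp (DF.fst.fst'.prod (DF.fst.snd'.prod u2))
    · exact hE.comp (DF.fst.fst'.prod (DF.snd.prod u2))
  · have B2 := (hB.comp (DF.fst (α := α) (β := ℕ))).comp (DF.fst (α := α × ℕ) (β := ℕ))
    have s3 := ((hs.comp (DF.fst (α := α) (β := ℕ))).comp (DF.fst (α := α × ℕ) (β := ℕ))).comp
      (DF.fst (α := (α × ℕ) × ℕ) (β := ℕ))
    refine DP.bexle hc (DP.bexle c1 (DP.and (DP.eq c2 ?_) (DP.bexle B2
      (DP.and (DP.balle c3 (DP.or (DP.eq DF.snd ?_) (DP.eq ?_ ?_))) (DP.and (DP.le ?_ s3) ?_)))))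
    · exact (DF.const 4).npair (DF.fst.snd'.npair DF.snd)
    · exact DF.fst.fst'.fst'.snd'
    · exact DF.fst.snd'.beta DF.snd
    · exact (u3.comp DF.fst).beta DF.snd
    · exact DF.snd.beta DF.fst.fst'.snd'
    · exact hE.comp (DF.fst.fst'.fst'.prod (DF.fst.snd'.prod DF.snd))

end

end Pool.Agent.W894.LIO
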