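import Pool.Agent.W894.LIO.RF

/-!
Bounded formulas are translated to internal formulas.
-/

set_option autoImplicit false

namespace Pool.Agent.W894.LIO

open Pool.Agent.Helper626

/-- negation -/
def RF.neg (A : RF) : RF := .nand A A

/-- conjunction -/
def RF.conj (A B : RF) : RF := RF.neg (.nand A B)

/-- equality -/
def RF.eqv (i j : ℕ) : RF := RF.conj (RF.neg (.lt i j)) (RF.neg (.lt j i))

theorem RF.ev_neg {s : ℕ} {A : RF} {v : ℕ → ℕ} : A.neg.ev s v ↔ ¬ A.ev s v := by
  unfold RF.neg
  change ¬ (A.ev s v ∧ A.ev s v) ↔ _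
  rw [and_self_iff]

theorem RF.ev_conj {s : ℕ} {A B : RF} {v : ℕ → ℕ} :
    (RF.conj A B).ev s v ↔ A.ev s v ∧ B.ev s v := by
  unfold RF.conj
  rw [RF.ev_neg]
  change ¬ ¬ (A.ev s v ∧ B.ev s v) ↔ _
  rw [not_not]

theorem RF.ev_eqv {s : ℕ} {i j : ℕ} {v : ℕ → ℕ} :
    (RF.eqv i j).ev s v ↔ v i = v j := by
  unfold RF.eqv
  rw [RF.ev_conj, RF.ev_neg, RF.ev_neg]
  change (¬ v i < v j ∧ ¬ v j < v i) ↔ _
  omega

theorem RF.ev_ex {s : ℕ} {j : ℕ} {A : RF} {v : ℕ → ℕ} :
    (RF.ex j A).ev s v ↔ ∃ x, x ≤ s ∧ A.ev s (Function.update v j x) := Iff.rfl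

theorem bd_lift {X K L : ℕ} (h : K ≤ L) {s : ℕ} (hs : (X + 2) ^ L ≤ s) : (X + 2) ^ K ≤ s :=
  (bnd_mono h).trans hs

theorem one_le_bd (X K : ℕ) : 1 ≤ (X + 2) ^ K := Nat.one_le_pow _ _ (by omega)

theorem restr_update {n j : ℕ} (h : n ≤ j) (v : ℕ → ℕ) (x : ℕ) :
    (fun i : Fin n => Function.update v j x i) = fun i : Fin n => v i := by
  funext i
  have := i.isLt
  rw [Function.update_of_ne (by omega)]

theorem term_rf {n : ℕ} {t : (Fin n → ℕ) → ℕ} (ht : T0 false t) :
    ∃ K : ℕ, (∀ (v : Fin n → ℕ) (X : ℕ), (∀ i, v i ≤ X) → t v ≤ (X + 2) ^ K) ∧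
      ∀ k, n ≤ k → ∃ G : RF, ∀ (v : ℕ → ℕ) (X s : ℕ), (∀ i : Fin n, v i ≤ X) →
        (X + 2) ^ K ≤ s → (G.ev s v ↔ v k = t (fun i => v i)) := by
  induction ht with
  | var i =>
    refine ⟨1, fun v X h => by
      have := h i
      rw [pow_one]
      change v i ≤ X + 2
      omega, fun k hk => ⟨RF.eqv k i, ?_⟩⟩
    intro v X s _ _
    exact RF.ev_eqv
  | zero =>
    refine ⟨0, fun v X h => Nat.zero_le _, fun k hk => ⟨RF.add k k k, ?_⟩⟩
    intro v X s _ _
    change v k + v k = v k ↔ v k = 0
    omega
  | one =>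
    refine ⟨0, fun v X h => by simp, fun k hk => ⟨RF.conj (RF.mul k k k) (RF.neg (RF.add k k k)), ?_⟩⟩
    intro v X s _ _
    rw [RF.ev_conj, RF.ev_neg]
    change v k * v k = v k ∧ ¬ (v k + v k = v k) ↔ v k = 1
    constructor
    · rintro ⟨h1, h2⟩
      have h3 : 0 < v k := by omega
      exact Nat.eq_of_mul_eq_mul_left h3 (by omega)
    · intro h
      rw [h]
      omega
  | @add s t hs ht ihs iht =>
    obtain ⟨K1, hb1, h1⟩ := ihs
    obtain ⟨K2, hb2, h2⟩ := iht
    refine ⟨K1 + K2 + 1, ?_, ?_⟩
    · intro v X h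
      have h3 := (hb1 v X h).trans (bnd_mono (Nat.le_add_right K1 K2))
      have h4 := (hb2 v X h).trans (bnd_mono (Nat.le_add_left K2 K1))
      rw [pow_succ]
      nlinarith [one_le_bd X (K1 + K2)]
    · intro k hk
      obtain ⟨G1, hG1⟩ := h1 (k + 1) (by omega)
      obtain ⟨G2, hG2⟩ := h2 (k + 2) (by omega)
      refine ⟨RF.ex (k + 1) (RF.ex (k + 2) (RF.conj G1 (RF.conj G2 (RF.add (k + 1) (k + 2) k)))),
        ?_⟩
      intro v X r hv hr
      simp only [RF.ev_ex, RF.ev_conj]
      have hs' := bd_lift (by omega : K1 ≤ K1 + K2 + 1) hr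
      have ht' := bd_lift (by omega : K2 ≤ K1 + K2 + 1) hr
      have e1 : ∀ x y, (fun i : Fin n => Function.update (Function.update v (k + 1) x) (k + 2) y i) =
          fun i : Fin n => v i := fun x y => by
        rw [restr_update (by omega), restr_update (by omega)]
      have e2 : ∀ x y, ∀ i : Fin n,
          Function.update (Function.update v (k + 1) x) (k + 2) y i ≤ X := fun x y i => by
        have := congrFun (e1 x y) i
        beta_reduce at this
        rw [this]
        exact hv i
      have e3 : ∀ x y, Function.update (Function.update v (k + 1) x) (k + 2) y (k + 1) = x := by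
        intro x y
        rw [Function.update_of_ne (by omega), Function.update_self]
      have e4 : ∀ x y, Function.update (Function.update v (k + 1) x) (k + 2) y (k + 2) = y := by
        intro x y
        rw [Function.update_self]
      have e5 : ∀ x y, Function.update (Function.update v (k + 1) x) (k + 2) y k = v k := by
        intro x y
        rw [Function.update_of_ne (by omega), Function.update_of_ne (by omega)]
      have key : ∀ x y, (G1.ev r (Function.update (Function.update v (k + 1) x) (k + 2) y) ∧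
          G2.ev r (Function.update (Function.update v (k + 1) x) (k + 2) y) ∧
          (RF.add (k + 1) (k + 2) k).ev r (Function.update (Function.update v (k + 1) x) (k + 2) y))
          ↔ (x = s (fun i => v i) ∧ y = t (fun i => v i) ∧ x + y = v k) := by
        intro x y
        rw [hG1 _ X r (e2 x y) hs', hG2 _ X r (e2 x y) ht', e1, e3, e4]
        change _ ∧ _ ∧ _ + _ = _ ↔ _
        rw [e3, e4, e5]
      simp only [key]
      constructor
      · rintro ⟨x, _, y, _, rfl, rfl, h⟩
        exact h.symm
      · intro h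
        exact ⟨_, (hb1 _ X (fun i => hv i)).trans hs', _, (hb2 _ X (fun i => hv i)).trans ht',
          rfl, rfl, h.symm⟩
  | @mul s t hs ht ihs iht =>
    obtain ⟨K1, hb1, h1⟩ := ihs
    obtain ⟨K2, hb2, h2⟩ := iht
    refine ⟨K1 + K2 + 1, ?_, ?_⟩
    · intro v X h
      have h3 := Nat.mul_le_mul (hb1 v X h) (hb2 v X h)
      rw [← pow_add] at h3
      exact h3.trans (bnd_mono (by omega))
    · intro k hk
      obtain ⟨G1, hG1⟩ := h1 (k + 1) (by omega)
      obtain ⟨G2, hG2⟩ := h2 (k + 2) (by omega)
      refine ⟨RF.ex (k + 1) (RF.ex (k + 2) (RF.conj G1 (RF.conj G2 (RF.mul (k + 1) (k + 2) k)))),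
        ?_⟩
      intro v X r hv hr
      simp only [RF.ev_ex, RF.ev_conj]
      have hs' := bd_lift (by omega : K1 ≤ K1 + K2 + 1) hr
      have ht' := bd_lift (by omega : K2 ≤ K1 + K2 + 1) hr
      have e1 : ∀ x y, (fun i : Fin n => Function.update (Function.update v (k + 1) x) (k + 2) y i) =
          fun i : Fin n => v i := fun x y => by
        rw [restr_update (by omega), restr_update (by omega)]
      have e2 : ∀ x y, ∀ i : Fin n,
          Function.update (Function.update v (k + 1) x) (k + 2) y i ≤ X := fun x y i => by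
        have := congrFun (e1 x y) i
        beta_reduce at this
        rw [this]
        exact hv i
      have e3 : ∀ x y, Function.update (Function.update v (k + 1) x) (k + 2) y (k + 1) = x := by
        intro x y
        rw [Function.update_of_ne (by omega), Function.update_self]
      have e4 : ∀ x y, Function.update (Function.update v (k + 1) x) (k + 2) y (k + 2) = y := by
        intro x y
        rw [Function.update_self]
      have e5 : ∀ x y, Function.update (Function.update v (k + 1) x) (k + 2) y k = v k := by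
        intro x y
        rw [Function.update_of_ne (by omega), Function.update_of_ne (by omega)]
      have key : ∀ x y, (G1.ev r (Function.update (Function.update v (k + 1) x) (k + 2) y) ∧
          G2.ev r (Function.update (Function.update v (k + 1) x) (k + 2) y) ∧
          (RF.mul (k + 1) (k + 2) k).ev r (Function.update (Function.update v (k + 1) x) (k + 2) y))
          ↔ (x = s (fun i => v i) ∧ y = t (fun i => v i) ∧ x * y = v k) := by
        intro x y
        rw [hG1 _ X r (e2 x y) hs', hG2 _ X r (e2 x y) ht', e1, e3, e4]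
        change _ ∧ _ ∧ _ * _ = _ ↔ _
        rw [e3, e4, e5]
      simp only [key]
      constructor
      · rintro ⟨x, _, y, _, rfl, rfl, h⟩
        exact h.symm
      · intro h
        exact ⟨_, (hb1 _ X (fun i => hv i)).trans hs', _, (hb2 _ X (fun i => hv i)).trans ht',
          rfl, rfl, h.symm⟩
  | pow h _ _ _ _ => exact absurd h (by simp)

theorem delta_rf {n : ℕ} {P : (Fin n → ℕ) → Prop} (hP : D0 false P) :
    ∃ (K : ℕ) (G : RF), ∀ (v : ℕ → ℕ) (X s : ℕ), (∀ i : Fin n, v i ≤ X) →
        (X + 2) ^ K ≤ s → (G.ev s v ↔ P (fun i => v i)) := by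
  have atom : ∀ {n : ℕ} {s t : (Fin n → ℕ) → ℕ}, T0 false s → T0 false t → ∃ (K : ℕ) (G : RF → RF),
      ∀ A (v : ℕ → ℕ) (X r : ℕ), (∀ i : Fin n, v i ≤ X) →
        (X + 2) ^ K ≤ r → ((G A).ev r v ↔ A.ev r (Function.update (Function.update v n
          (s (fun i => v i))) (n + 1) (t (fun i => v i)))) := by
    intro n s t hs ht
    obtain ⟨K1, hb1, h1⟩ := term_rf hs
    obtain ⟨K2, hb2, h2⟩ := term_rf ht
    obtain ⟨G1, hG1⟩ := h1 n le_rfl
    obtain ⟨G2, hG2⟩ := h2 (n + 1) (by omega)
    refine ⟨K1 + K2, fun A => RF.ex n (RF.ex (n + 1) (RF.conj G1 (RF.conj G2 A))), ?_⟩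
    intro A v X r hv hr
    simp only [RF.ev_ex, RF.ev_conj]
    have hs' := bd_lift (by omega : K1 ≤ K1 + K2) hr
    have ht' := bd_lift (by omega : K2 ≤ K1 + K2) hr
    have e1 : ∀ x y, (fun i : Fin n => Function.update (Function.update v n x) (n + 1) y i) =
        fun i : Fin n => v i := fun x y => by
      rw [restr_update (by omega), restr_update (by omega)]
    have e2 : ∀ x y, ∀ i : Fin n,
        Function.update (Function.update v n x) (n + 1) y i ≤ X := fun x y i => by
      have := congrFun (e1 x y) i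
      beta_reduce at this
      rw [this]
      exact hv i
    have e3 : ∀ x y, Function.update (Function.update v n x) (n + 1) y n = x := by
      intro x y
      rw [Function.update_of_ne (by omega), Function.update_self]
    have e4 : ∀ x y, Function.update (Function.update v n x) (n + 1) y (n + 1) = y := by
      intro x y
      rw [Function.update_self]
    constructor
    · rintro ⟨x, _, y, _, h3, h4, h5⟩
      rw [hG1 _ X r (e2 x y) hs', e1, e3] at h3
      rw [hG2 _ X r (e2 x y) ht', e1, e4] at h4
      rw [← h3, ← h4]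
      exact h5
    · intro h
      refine ⟨_, (hb1 _ X (fun i => hv i)).trans hs', _, (hb2 _ X (fun i => hv i)).trans ht',
        ?_, ?_, h⟩
      · rw [hG1 _ X r (e2 _ _) hs', e1, e3]
      · rw [hG2 _ X r (e2 _ _) ht', e1, e4]
  induction hP with
  | @fls n =>
    refine ⟨0, RF.lt 0 0, fun v X s _ _ => ?_⟩
    change v 0 < v 0 ↔ False
    simp
  | @eq n s t hs ht =>
    obtain ⟨K, G, hG⟩ := atom hs ht
    refine ⟨K, G (RF.eqv n (n + 1)), fun v X r hv hr => ?_⟩
    rw [hG _ v X r hv hr, RF.ev_eqv, Function.update_self, Function.update_of_ne (by omega),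
      Function.update_self]
  | @lt n s t hs ht =>
    obtain ⟨K, G, hG⟩ := atom hs ht
    refine ⟨K, G (RF.lt n (n + 1)), fun v X r hv hr => ?_⟩
    rw [hG _ v X r hv hr]
    unfold RF.ev
    rw [Function.update_self, Function.update_of_ne (by omega),
      Function.update_self]
  | @imp n P Q hP hQ ihP ihQ =>
    obtain ⟨K1, G1, h1⟩ := ihP
    obtain ⟨K2, G2, h2⟩ := ihQ
    refine ⟨K1 + K2, RF.nand G1 (RF.neg G2), fun v X r hv hr => ?_⟩
    have hs' := bd_lift (by omega : K1 ≤ K1 + K2) hr
    have ht' := bd_lift (by omega : K2 ≤ K1 + K2) hr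
    change ¬ (G1.ev r v ∧ G2.neg.ev r v) ↔ _
    rw [RF.ev_neg, h1 v X r hv hs', h2 v X r hv ht']
    tauto
  | @ball0 n t P ht hP ih =>
    obtain ⟨K2, G2, h2⟩ := ih
    obtain ⟨K1, hb1, h1⟩ := term_rf ht
    obtain ⟨G1, hG1⟩ := h1 (n + 1) (by omega)
    refine ⟨(K1 + 3) * K2 + K1, RF.neg (RF.ex n (RF.conj
      (RF.ex (n + 1) (RF.conj G1 (RF.lt n (n + 1)))) (RF.neg G2))), fun v X r hv hr => ?_⟩
    have hr1 := bd_lift (by omega : K1 ≤ (K1 + 3) * K2 + K1) hr
    have hr2 := bd_lift (by omega : (K1 + 3) * K2 ≤ (K1 + 3) * K2 + K1) hr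
    rw [RF.ev_neg]
    simp only [RF.ev_ex, RF.ev_conj, RF.ev_neg]
    have htv : t (fun i => v i) ≤ (X + 2) ^ K1 := hb1 _ X (fun i => hv i)
    have e1 : ∀ x y, (fun i : Fin n => Function.update (Function.update v n x) (n + 1) y i) =
        fun i : Fin n => v i := fun x y => by
      rw [restr_update (by omega), restr_update (by omega)]
    have e2 : ∀ x y, ∀ i : Fin n,
        Function.update (Function.update v n x) (n + 1) y i ≤ X := fun x y i => by
      have := congrFun (e1 x y) i
      beta_reduce at this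
      rw [this]
      exact hv i
    have key : ∀ x, (∃ y, y ≤ r ∧ (G1.ev r (Function.update (Function.update v n x) (n + 1) y) ∧
        (RF.lt n (n + 1)).ev r (Function.update (Function.update v n x) (n + 1) y))) ↔
        x < t (fun i => v i) := by
      intro x
      constructor
      · rintro ⟨y, _, h3, h4⟩
        rw [hG1 _ X r (e2 x y) hr1, e1, Function.update_self] at h3
        unfold RF.ev at h4
        rw [Function.update_self, Function.update_of_ne (by omega),
          Function.update_self] at h4
        omega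
      · intro h
        refine ⟨_, htv.trans hr1, ?_, ?_⟩
        · rw [hG1 _ X r (e2 x _) hr1, e1, Function.update_self]
        · unfold RF.ev
          rw [Function.update_self, Function.update_of_ne (by omega),
            Function.update_self]
          exact h
    simp only [key]
    have h3 : ∀ x, x < t (fun i => v i) → (G2.ev r (Function.update v n x) ↔
        P (Fin.snoc (fun i : Fin n => v i) x)) := by
      intro x hx
      have e3 : (fun i : Fin (n + 1) => Function.update v n x i) =
          Fin.snoc (fun i : Fin n => v i) x := by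
        funext i
        refine Fin.lastCases ?_ (fun i => ?_) i
        · simp
        · rw [Fin.snoc_castSucc]
          have := i.isLt
          simp only [Fin.val_castSucc]
          rw [Function.update_of_ne (by omega)]
      rw [h2 (Function.update v n x) ((X + 2) ^ (K1 + 1)) r, e3]
      · intro i
        have h5 := congrFun e3 i
        beta_reduce at h5
        rw [h5]
        have h6 := one_le_bd X K1
        have h7 : (X + 2) ^ (K1 + 1) = (X + 2) ^ K1 * (X + 2) := pow_succ _ _
        refine Fin.lastCases ?_ (fun i => ?_) i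
        · rw [Fin.snoc_last, h7]
          nlinarith
        · rw [Fin.snoc_castSucc, h7]
          have := hv i
          nlinarith
      · refine le_trans ?_ hr2
        rw [pow_mul]
        refine Nat.pow_le_pow_left ?_ _
        have h6 := one_le_bd X (K1 + 1)
        have h7 : (X + 2) ^ (K1 + 3) = (X + 2) ^ (K1 + 1) * (X + 2) ^ 2 := by
          rw [← pow_add]
        have h8 : 4 ≤ (X + 2) ^ 2 := by nlinarith [Nat.zero_le X]
        rw [h7]
        nlinarith
    constructor
    · intro h x hx
      by_contra hcon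
      exact h ⟨x, (hx.le.trans htv).trans hr1, hx, fun h' => hcon ((h3 x hx).1 h')⟩
    · rintro h ⟨x, _, hx, h'⟩
      exact h' ((h3 x hx).2 (h x hx))

end Pool.Agent.W894.LIO
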