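import Pool.Agent.W894.LIO.Main
import Pool.Agent.W894.LIO.Defs

/-!
The ultrapower of the standard model.
-/

set_option autoImplicit false
set_option maxHeartbeats 4000000

namespace Pool.Agent.W894.LIO

open Pool.Agent.Helper626 FirstOrder FirstOrder.Language Filter

/-- the ultrapower -/
def UM {I : Type} (U : Ultrafilter I) : Type := Filter.Germ (U : Filter I) ℕ

section

variable {I : Type} {U : Ultrafilter I}

/-- the class of a function -/
def cl (f : I → ℕ) : UM U := (f : Filter.Germ (U : Filter I) ℕ)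

theorem cl_eq {f g : I → ℕ} : (cl f : UM U) = cl g ↔ ∀ᶠ d in (U : Filter I), f d = g d :=
  Filter.Germ.coe_eq

theorem exists_cl (x : UM U) : ∃ f : I → ℕ, x = cl f := by
  induction x using Filter.Germ.inductionOn with
  | _ f => exact ⟨f, rfl⟩

noncomputable instance umOps : ArithOps (UM U) where
  zero := cl (fun _ => 0)
  one := cl (fun _ => 1)
  add := Filter.Germ.map₂ (· + ·)
  mul := Filter.Germ.map₂ (· * ·)
  pow := Filter.Germ.map₂ (· ^ ·)
  lt := Filter.Germ.LiftRel (· < ·)

theorem cl_zero : (0 : UM U) = cl (fun _ => 0) := rfl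

theorem cl_one : (1 : UM U) = cl (fun _ => 1) := rfl

theorem cl_add (f g : I → ℕ) : (cl f + cl g : UM U) = cl (fun d => f d + g d) := rfl

theorem cl_mul (f g : I → ℕ) : (cl f * cl g : UM U) = cl (fun d => f d * g d) := rfl

theorem cl_lt {f g : I → ℕ} : (cl f : UM U) < cl g ↔ ∀ᶠ d in (U : Filter I), f d < g d := Iff.rfl

theorem tval_cl {n : ℕ} (t : Trm false n) (v : Fin n → (I → ℕ)) :
    tval t (fun i => (cl (v i) : UM U)) = cl (fun d => tval t (fun i => v i d)) := by
  unfold tval
  induction t with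
  | var a =>
    rcases a with a | i
    · exact a.elim
    · rfl
  | @func l f ts ih =>
    change AFunc false l at f
    cases f with
    | zero => rfl
    | one => rfl
    | add => exact congrArg₂ (fun a b : UM U => a + b) (ih 0) (ih 1)
    | mul => exact congrArg₂ (fun a b : UM U => a * b) (ih 0) (ih 1)
    | pow h => exact absurd h (by simp)

theorem snoc_cl {n : ℕ} (v : Fin n → (I → ℕ)) (f : I → ℕ) :
    (Fin.snoc (fun i => (cl (v i) : UM U)) (cl f) : Fin (n + 1) → UM U) =
      fun i => cl ((Fin.snoc v f : Fin (n + 1) → (I → ℕ)) i) := by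
  funext i
  refine Fin.lastCases ?_ (fun i => ?_) i
  · simp
  · simp

theorem snoc_ap {n : ℕ} (v : Fin n → (I → ℕ)) (f : I → ℕ) (d : I) :
    (fun i => (Fin.snoc v f : Fin (n + 1) → (I → ℕ)) i d) =
      (Fin.snoc (fun i => v i d) (f d) : Fin (n + 1) → ℕ) := by
  funext i
  refine Fin.lastCases ?_ (fun i => ?_) i
  · simp
  · simp

/-- Łoś's theorem -/
theorem los {n : ℕ} (φ : Fml false n) : ∀ (v : Fin n → (I → ℕ)),
    (Sat φ (fun i => (cl (v i) : UM U)) ↔ ∀ᶠ d in (U : Filter I), Sat φ (fun i => v i d)) := by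
  induction φ with
  | falsum =>
    intro v
    change False ↔ ∀ᶠ d in (U : Filter I), False
    rw [Filter.eventually_false_iff_eq_bot]
    exact ⟨fun h => h.elim, fun h => U.neBot.ne h⟩
  | equal s t =>
    intro v
    have h := fun (N : Type) [ArithOps N] (w : Fin _ → N) => sat_eq s t w
    refine (h _ _).trans ?_
    rw [tval_cl, tval_cl, cl_eq]
    exact Filter.eventually_congr (Filter.Eventually.of_forall fun d => (h _ _).symm)
  | @rel n l R ts =>
    intro v
    change ARel l at R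
    cases R
    have key : ∀ (N : Type) [ArithOps N] (w : Fin n → N),
        Sat (BoundedFormula.rel (L := LA false) ARel.lt ts) w ↔ tval (ts 0) w < tval (ts 1) w := by
      intro N _ w
      exact Iff.rfl
    refine (key _ _).trans ?_
    rw [tval_cl, tval_cl, cl_lt]
    exact Filter.eventually_congr (Filter.Eventually.of_forall fun d => (key _ _).symm)
  | imp φ ψ ih1 ih2 =>
    intro v
    rw [sat_imp, ih1, ih2, ← Ultrafilter.eventually_imp]
    rfl
  | all φ ih =>
    intro v
    rw [sat_all]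
    constructor
    · intro h
      by_contra hcon
      rw [← Ultrafilter.eventually_not] at hcon
      classical
      have hw : ∀ d, ∃ x : ℕ, ¬ Sat φ.all (fun i => v i d) →
          ¬ Sat φ (Fin.snoc (fun i => v i d) x) := by
        intro d
        by_cases hd : Sat φ.all (fun i => v i d)
        · exact ⟨0, fun h => absurd hd h⟩
        · rw [sat_all] at hd
          push Not at hd
          obtain ⟨x, hx⟩ := hd
          exact ⟨x, fun _ => hx⟩
      choose f hf using hw
      have h1 := h (cl f)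
      rw [snoc_cl, ih] at h1
      obtain ⟨d, hd1, hd2⟩ := (hcon.and h1).exists
      rw [snoc_ap] at hd2
      exact hf d hd1 hd2
    · intro h x
      obtain ⟨f, rfl⟩ := exists_cl x
      rw [snoc_cl, ih]
      filter_upwards [h] with d hd
      rw [snoc_ap]
      exact (sat_all _ _).1 hd _

theorem um_PAminus : PAminus (UM U) where
  add_assoc x y z := by
    obtain ⟨f, rfl⟩ := exists_cl x
    obtain ⟨g, rfl⟩ := exists_cl y
    obtain ⟨h, rfl⟩ := exists_cl z
    simp only [cl_add, Nat.add_assoc]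
  add_comm x y := by
    obtain ⟨f, rfl⟩ := exists_cl x
    obtain ⟨g, rfl⟩ := exists_cl y
    simp only [cl_add, cl_eq]
    exact Eventually.of_forall fun d => Nat.add_comm _ _
  mul_assoc x y z := by
    obtain ⟨f, rfl⟩ := exists_cl x
    obtain ⟨g, rfl⟩ := exists_cl y
    obtain ⟨h, rfl⟩ := exists_cl z
    simp only [cl_mul, cl_eq]
    exact Eventually.of_forall fun d => Nat.mul_assoc _ _ _
  mul_comm x y := by
    obtain ⟨f, rfl⟩ := exists_cl x
    obtain ⟨g, rfl⟩ := exists_cl y
    simp only [cl_mul, cl_eq]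
    exact Eventually.of_forall fun d => Nat.mul_comm _ _
  mul_add x y z := by
    obtain ⟨f, rfl⟩ := exists_cl x
    obtain ⟨g, rfl⟩ := exists_cl y
    obtain ⟨h, rfl⟩ := exists_cl z
    simp only [cl_mul, cl_add, cl_eq]
    exact Eventually.of_forall fun d => Nat.mul_add _ _ _
  add_zero x := by
    obtain ⟨f, rfl⟩ := exists_cl x
    rw [cl_zero, cl_add, cl_eq]
    exact Eventually.of_forall fun d => Nat.add_zero _
  mul_zero x := by
    obtain ⟨f, rfl⟩ := exists_cl x
    rw [cl_zero, cl_mul, cl_eq]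
    exact Eventually.of_forall fun d => Nat.mul_zero _
  mul_one x := by
    obtain ⟨f, rfl⟩ := exists_cl x
    rw [cl_one, cl_mul, cl_eq]
    exact Eventually.of_forall fun d => Nat.mul_one _
  lt_trans x y z h1 h2 := by
    obtain ⟨f, rfl⟩ := exists_cl x
    obtain ⟨g, rfl⟩ := exists_cl y
    obtain ⟨h, rfl⟩ := exists_cl z
    rw [cl_lt] at h1 h2 ⊢
    filter_upwards [h1, h2] with d h1 h2
    omega
  lt_irrefl x h := by
    obtain ⟨f, rfl⟩ := exists_cl x
    rw [cl_lt] at h
    obtain ⟨d, hd⟩ := h.exists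
    omega
  lt_trichotomy x y := by
    obtain ⟨f, rfl⟩ := exists_cl x
    obtain ⟨g, rfl⟩ := exists_cl y
    rw [cl_lt, cl_lt, cl_eq, ← Ultrafilter.eventually_or, ← Ultrafilter.eventually_or]
    exact Eventually.of_forall fun d => lt_trichotomy _ _
  add_lt_add x y z h := by
    obtain ⟨f, rfl⟩ := exists_cl x
    obtain ⟨g, rfl⟩ := exists_cl y
    obtain ⟨k, rfl⟩ := exists_cl z
    rw [cl_add, cl_add, cl_lt] at *
    filter_upwards [h] with d h
    omega
  mul_lt_mul x y z hz h := by
    obtain ⟨f, rfl⟩ := exists_cl x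
    obtain ⟨g, rfl⟩ := exists_cl y
    obtain ⟨k, rfl⟩ := exists_cl z
    rw [cl_zero, cl_lt] at hz
    rw [cl_lt] at h
    rw [cl_mul, cl_mul, cl_lt]
    filter_upwards [h, hz] with d h hz
    exact Nat.mul_lt_mul_of_pos_right h hz
  exists_add x y h := by
    obtain ⟨f, rfl⟩ := exists_cl x
    obtain ⟨g, rfl⟩ := exists_cl y
    rw [cl_lt] at h
    refine ⟨cl (fun d => g d - f d), ?_⟩
    rw [cl_add, cl_eq]
    filter_upwards [h] with d h
    omega
  zero_lt_one := by
    rw [cl_zero, cl_one, cl_lt]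
    exact Eventually.of_forall fun d => by omega
  discrete x h := by
    obtain ⟨f, rfl⟩ := exists_cl x
    rw [cl_zero, cl_lt] at h
    rw [cl_one, cl_eq, cl_lt, ← Ultrafilter.eventually_or]
    filter_upwards [h] with d h
    omega
  nonneg x := by
    obtain ⟨f, rfl⟩ := exists_cl x
    rw [cl_zero, cl_eq, cl_lt, ← Ultrafilter.eventually_or]
    exact Eventually.of_forall fun d => by omega

theorem um_ISigma : ISigma false 0 (UM U) := by
  classical
  intro m φ _ p h0 hs x
  have hp : ∃ q : Fin m → (I → ℕ), p = fun i => cl (q i) := by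
    choose q hq using fun i => exists_cl (p i)
    exact ⟨q, funext hq⟩
  obtain ⟨q, rfl⟩ := hp
  obtain ⟨f, rfl⟩ := exists_cl x
  by_contra hx
  rw [snoc_cl, los, ← Ultrafilter.eventually_not] at hx
  simp only [snoc_ap] at hx
  let g : I → ℕ := fun d =>
    if h : ∃ y, ¬ Sat φ (Fin.snoc (fun i => q i d) y) then Nat.find h else 0
  have hg : ∀ᶠ d in (U : Filter I), (¬ Sat φ (Fin.snoc (fun i => q i d) (g d))) ∧
      (∀ y < g d, Sat φ (Fin.snoc (fun i => q i d) y)) := by
    filter_upwards [hx] with d hd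
    have h : ∃ y, ¬ Sat φ (Fin.snoc (fun i => q i d) y) := ⟨_, hd⟩
    have h1 : g d = Nat.find h := dif_pos h
    rw [h1]
    refine ⟨Nat.find_spec h, fun y hy => ?_⟩
    by_contra hcon
    exact Nat.find_min h hy hcon
  have hpos : ∀ᶠ d in (U : Filter I), g d ≠ 0 := by
    rw [cl_zero, snoc_cl, los] at h0
    simp only [snoc_ap] at h0
    filter_upwards [hg, h0] with d h1 h2 h3
    rw [h3] at h1
    exact h1.1 h2
  have h1 := hs (cl (fun d => g d - 1)) (by
    rw [snoc_cl, los]
    simp only [snoc_ap]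
    filter_upwards [hg, hpos] with d h1 h2
    exact h1.2 _ (by omega))
  rw [cl_one, cl_add, snoc_cl, los] at h1
  simp only [snoc_ap] at h1
  obtain ⟨d, h2, h3, h4⟩ := (h1.and (hg.and hpos)).exists
  have h5 : g d - 1 + 1 = g d := by omega
  rw [h5] at h2
  exact h3.1 h2

theorem um_numeral (k : ℕ) : (numeral k : UM U) = cl (fun _ => k) := by
  induction k with
  | zero => rfl
  | succ k ih =>
    change numeral k + 1 = _
    rw [ih, cl_one, cl_add]

theorem um_stdPow (f : I → ℕ) (n : ℕ) : stdPow (cl f : UM U) n = cl (fun d => f d ^ n) := by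
  induction n with
  | zero => rfl
  | succ n ih =>
    change stdPow (cl f : UM U) n * cl f = _
    rw [ih, cl_mul]
    rfl

theorem um_equiv (σ : Fml false 0) : Sat σ (Fin.elim0 : Fin 0 → UM U) ↔
    Sat σ (Fin.elim0 : Fin 0 → ℕ) := by
  have h := los (U := U) σ (fun i => Fin.elim0 i)
  have e1 : (fun i : Fin 0 => (cl ((fun i : Fin 0 => (Fin.elim0 i : I → ℕ)) i) : UM U)) =
      Fin.elim0 := funext fun i => i.elim0
  have e2 : ∀ d, (fun i : Fin 0 => (fun i : Fin 0 => (Fin.elim0 i : I → ℕ)) i d) =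
      Fin.elim0 := fun d => funext fun i => i.elim0
  rw [e1] at h
  simp only [e2] at h
  rw [h]
  constructor
  · intro h
    obtain ⟨_, hd⟩ := h.exists
    exact hd
  · intro h
    exact Eventually.of_forall fun _ => h

theorem vec3 (f g h : I → ℕ) : (![cl f, cl g, cl h] : Fin 3 → UM U) =
    fun i => cl ((![f, g, h] : Fin 3 → (I → ℕ)) i) := by
  funext i
  fin_cases i <;> rfl

theorem vec2 (f g : I → ℕ) : (![cl f, cl g] : Fin 2 → UM U) =
    fun i => cl ((![f, g] : Fin 2 → (I → ℕ)) i) := by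
  funext i
  fin_cases i <;> rfl

theorem vec1 (f : I → ℕ) : (![cl f] : Fin 1 → UM U) =
    fun i => cl ((![f] : Fin 1 → (I → ℕ)) i) := by
  funext i
  fin_cases i
  rfl

end

/-- the failure of the conjecture -/
theorem final (code : F1 → ℕ) (hcode : Function.Injective code) :
    ∃ (M : Type) (_ : ArithOps M), PAminus M ∧ ISigma false 0 M ∧
      (∀ σ : Fml false 0, Sat σ (Fin.elim0 : Fin 0 → M) ↔ Sat σ (Fin.elim0 : Fin 0 → ℕ)) ∧
      ∃ (a : M) (Γ : Fml false 3), IsDelta0 Γ ∧ ∀ n : ℕ, 1 ≤ n → ∃ b : M,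
        (∀ E : Fml false 2, (∀ x y : ℕ, Sat E ![x, y] ↔ y = 2 ^ x) → Sat E ![stdPow a n, b]) ∧
        ∀ θ : F1, Sat Γ ![a, b, numeral (code θ)] ↔ Sat θ.1 ![a] := by
  classical
  obtain ⟨Γ, hΓ, hΓ'⟩ := main code hcode
  choose A hA using hΓ'
  let U : Ultrafilter (Finset F1) := Ultrafilter.of Filter.atTop
  have hU : ∀ θ : F1, ∀ᶠ Θ in (U : Filter (Finset F1)), θ ∈ Θ := by
    intro θ
    refine Ultrafilter.of_le _ ?_
    filter_upwards [Filter.eventually_ge_atTop ({θ} : Finset F1)] with Θ hΘ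
    exact hΘ (Finset.mem_singleton_self θ)
  refine ⟨UM U, umOps, um_PAminus, um_ISigma, um_equiv, cl A, Γ, hΓ, fun n hn =>
    ⟨cl (fun Θ => 2 ^ (A Θ ^ n)), ?_, ?_⟩⟩
  · intro E hE
    rw [um_stdPow, vec2, los]
    refine Eventually.of_forall fun Θ => ?_
    have h1 : (fun i => (![fun d => A d ^ n, fun Θ => 2 ^ (A Θ ^ n)] :
        Fin 2 → (Finset F1 → ℕ)) i Θ) = ![A Θ ^ n, 2 ^ (A Θ ^ n)] := by
      funext i
      fin_cases i <;> rfl
    rw [h1]
    exact (hE _ _).2 rfl
  · intro θ
    rw [um_numeral, vec3, vec1, los, los]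
    refine Filter.eventually_congr ?_
    filter_upwards [hU θ] with Θ hΘ
    have h1 : (fun i => (![A, fun Θ => 2 ^ (A Θ ^ n), fun _ => code θ] :
        Fin 3 → (Finset F1 → ℕ)) i Θ) = ![A Θ, 2 ^ (A Θ ^ n), code θ] := by
      funext i
      fin_cases i <;> rfl
    have h2 : (fun i => (![A] : Fin 1 → (Finset F1 → ℕ)) i Θ) = ![A Θ] := by
      funext i
      fin_cases i
      rfl
    rw [h1, h2]
    refine hA Θ θ hΘ _ (Nat.pow_le_pow_right (by norm_num) ?_)
    exact Nat.le_self_pow (by omega) _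

end Pool.Agent.W894.LIO
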